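import Pool.Agent.Lib.MP_ec946a_RO.Hybrid

/-!
# Existence of sparse pseudorandom bipartite graphs
-/

set_option autoImplicit false

namespace Pool.Agent.MP_ec946a.RO

open Finset

theorem exists_PR {n D : ℕ} (hn : 1 ≤ n) {σ : ℝ} (hσ : 0 < σ) (hσ1 : σ ≤ 1)
    (hD : 8 ≤ σ ^ 2 * D) : ∃ tgt : Fin n × Fin D → Fin n, PR n D tgt σ := by
  classical
  have hn0 : (0 : ℝ) < n := by exact_mod_cast hn
  set l : ℝ := σ / 2 with hl
  have hl0 : 0 < l := by positivity
  by_contra hcon
  push Not at hcon
  -- the number of edges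
  let cnt : (Fin n × Fin D → Fin n) → Finset (Fin n) → Finset (Fin n) → ℕ := fun tgt S T =>
    (univ.filter fun e : Fin n × Fin D => e.1 ∈ S ∧ tgt e ∈ T).card
  have hbad : ∀ tgt : Fin n × Fin D → Fin n, ∃ p : Finset (Fin n) × Finset (Fin n),
      1 ≤ Real.exp (l * ((cnt tgt p.1 p.2 : ℝ) - (D * p.1.card * p.2.card / n + σ * (D * n)))) := by
    intro tgt
    have h := hcon tgt
    unfold PR at h
    push Not at h
    obtain ⟨S, T, h⟩ := h
    refine ⟨(S, T), Real.one_le_exp ?_⟩
    apply mul_nonneg hl0.le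
    simp only [cnt]
    linarith
  -- the exponential moment
  have hmom : ∀ S T : Finset (Fin n), ∑ tgt : Fin n × Fin D → Fin n,
      Real.exp (l * (cnt tgt S T : ℝ)) ≤
        (n : ℝ) ^ (n * D) * Real.exp (D * S.card * T.card / n * (l + l ^ 2)) := by
    intro S T
    have h1 : ∀ tgt : Fin n × Fin D → Fin n, Real.exp (l * (cnt tgt S T : ℝ)) =
        ∏ e : Fin n × Fin D, (if e.1 ∈ S ∧ tgt e ∈ T then Real.exp l else 1) := by
      intro tgt
      rw [prod_ite, prod_const_one, mul_one, prod_const, ← Real.exp_nat_mul, mul_comm]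
    have h2 : ∑ tgt : Fin n × Fin D → Fin n, Real.exp (l * (cnt tgt S T : ℝ)) =
        ∏ e : Fin n × Fin D, ∑ v : Fin n, (if e.1 ∈ S ∧ v ∈ T then Real.exp l else 1) := by
      rw [prod_univ_sum, Fintype.piFinset_univ]
      exact sum_congr rfl fun tgt _ => h1 tgt
    rw [h2]
    have h3 : ∀ e : Fin n × Fin D, ∑ v : Fin n, (if e.1 ∈ S ∧ v ∈ T then Real.exp l else 1) ≤
        n * Real.exp ((if e.1 ∈ S then 1 else 0) * (T.card / n * (l + l ^ 2))) := by
      intro e
      by_cases he : e.1 ∈ S
      · simp only [he, true_and, if_true, one_mul]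
        have h4 : ∑ v : Fin n, (if v ∈ T then Real.exp l else 1) =
            n + T.card * (Real.exp l - 1) := by
          have : ∀ v : Fin n, (if v ∈ T then Real.exp l else 1) =
              1 + (if v ∈ T then (Real.exp l - 1) else 0) := by
            intro v; split_ifs <;> ring
          rw [sum_congr rfl fun v _ => this v, sum_add_distrib, sum_const, card_univ,
            Fintype.card_fin, nsmul_eq_mul, mul_one, sum_ite_mem, univ_inter, sum_const,
            nsmul_eq_mul]
        rw [h4]
        have h5 : Real.exp l - 1 ≤ l + l ^ 2 := by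
          have h6 := Real.abs_exp_sub_one_sub_id_le (x := l) (by rw [abs_of_pos hl0]; linarith)
          have h7 := (abs_le.1 h6).2
          linarith
        have h8 := Real.add_one_le_exp ((T.card : ℝ) / n * (l + l ^ 2))
        have h9 : (n : ℝ) + T.card * (Real.exp l - 1) ≤
            n * ((T.card : ℝ) / n * (l + l ^ 2) + 1) := by
          have h10 : (n : ℝ) * ((T.card : ℝ) / n * (l + l ^ 2) + 1) =
              n + T.card * (l + l ^ 2) := by
            field_simp
            ring
          rw [h10]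
          have := mul_le_mul_of_nonneg_left h5 (by positivity : (0 : ℝ) ≤ T.card)
          linarith
        exact h9.trans (mul_le_mul_of_nonneg_left h8 hn0.le)
      · simp only [he, false_and, if_false, sum_const, card_univ, Fintype.card_fin, nsmul_eq_mul,
          mul_one, zero_mul, Real.exp_zero]
        exact le_rfl
    refine (prod_le_prod (fun e _ => sum_nonneg fun v _ => by split_ifs <;> positivity)
      fun e _ => h3 e).trans ?_
    rw [prod_mul_distrib, prod_const, card_univ, Fintype.card_prod, Fintype.card_fin,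
      Fintype.card_fin, ← Real.exp_sum, ← sum_mul]
    apply le_of_eq
    congr 2
    have h11 : ∑ e : Fin n × Fin D, (if e.1 ∈ S then (1 : ℝ) else 0) = S.card * D := by
      have h12 : ∀ x : Fin n, (∑ _y : Fin D, (if x ∈ S then (1 : ℝ) else 0)) =
          D * (if x ∈ S then (1 : ℝ) else 0) := by
        intro x
        rw [sum_const, card_univ, Fintype.card_fin, nsmul_eq_mul]
      rw [Fintype.sum_prod_type]
      rw [sum_congr rfl fun x _ => h12 x, ← mul_sum, sum_ite_mem, univ_inter, sum_const,
        nsmul_eq_mul, mul_one]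
      ring
    rw [h11]
    ring
  -- sum over all pairs
  have hsum : ((n : ℝ) ^ (n * D)) ≤ ∑ p : Finset (Fin n) × Finset (Fin n),
      ∑ tgt : Fin n × Fin D → Fin n, Real.exp (l * ((cnt tgt p.1 p.2 : ℝ) -
        (D * p.1.card * p.2.card / n + σ * (D * n)))) := by
    rw [sum_comm]
    have h1 : ((n : ℝ) ^ (n * D)) = ∑ _tgt : Fin n × Fin D → Fin n, (1 : ℝ) := by
      rw [sum_const, card_univ, nsmul_eq_mul, mul_one, Fintype.card_fun, Fintype.card_prod,
        Fintype.card_fin, Fintype.card_fin]
      push_cast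
      rfl
    rw [h1]
    apply sum_le_sum
    intro tgt _
    obtain ⟨p, hp⟩ := hbad tgt
    exact hp.trans (single_le_sum (f := fun p : Finset (Fin n) × Finset (Fin n) =>
      Real.exp (l * ((cnt tgt p.1 p.2 : ℝ) - (D * p.1.card * p.2.card / n + σ * (D * n)))))
      (fun p _ => (Real.exp_pos _).le) (mem_univ p))
  have hterm : ∀ p : Finset (Fin n) × Finset (Fin n),
      ∑ tgt : Fin n × Fin D → Fin n, Real.exp (l * ((cnt tgt p.1 p.2 : ℝ) -
        (D * p.1.card * p.2.card / n + σ * (D * n)))) ≤
        (n : ℝ) ^ (n * D) * Real.exp (-(2 * n)) := by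
    rintro ⟨S, T⟩
    have h1 : ∀ tgt : Fin n × Fin D → Fin n, Real.exp (l * ((cnt tgt S T : ℝ) -
        (D * S.card * T.card / n + σ * (D * n)))) = Real.exp (l * (cnt tgt S T : ℝ)) *
          Real.exp (-(l * (D * S.card * T.card / n + σ * (D * n)))) := by
      intro tgt
      rw [← Real.exp_add]
      congr 1
      ring
    simp only [h1]
    rw [← sum_mul]
    refine (mul_le_mul_of_nonneg_right (hmom S T) (Real.exp_pos _).le).trans ?_
    rw [mul_assoc, ← Real.exp_add]
    apply mul_le_mul_of_nonneg_left _ (by positivity)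
    apply Real.exp_le_exp.2
    have hS : (S.card : ℝ) ≤ n := by
      have := card_le_univ S
      rw [Fintype.card_fin] at this
      exact_mod_cast this
    have hT : (T.card : ℝ) ≤ n := by
      have := card_le_univ T
      rw [Fintype.card_fin] at this
      exact_mod_cast this
    have h2 : (D : ℝ) * S.card * T.card / n ≤ D * n := by
      rw [div_le_iff₀ hn0]
      have : (S.card : ℝ) * T.card ≤ n * n := mul_le_mul hS hT (by positivity) hn0.le
      nlinarith [(by positivity : (0 : ℝ) ≤ D)]
    have h3 : (D : ℝ) * S.card * T.card / n * l ^ 2 ≤ D * n * l ^ 2 :=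
      mul_le_mul_of_nonneg_right h2 (by positivity)
    have h4 : (8 : ℝ) * n ≤ σ ^ 2 * D * n := mul_le_mul_of_nonneg_right hD hn0.le
    rw [hl] at h3 ⊢
    nlinarith
  have hfin := hsum.trans (sum_le_sum fun p _ => hterm p)
  rw [sum_const, card_univ, Fintype.card_prod, Fintype.card_finset, Fintype.card_fin,
    nsmul_eq_mul] at hfin
  have hpos : (0 : ℝ) < (n : ℝ) ^ (n * D) := by positivity
  have h1 : (1 : ℝ) ≤ (4 : ℝ) ^ n * Real.exp (-(2 * n)) := by
    have h2 : ((2 ^ n * 2 ^ n : ℕ) : ℝ) = (4 : ℝ) ^ n := by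
      push_cast
      rw [← mul_pow]
      norm_num
    rw [h2] at hfin
    have h3 : (n : ℝ) ^ (n * D) * 1 ≤ (n : ℝ) ^ (n * D) * ((4 : ℝ) ^ n * Real.exp (-(2 * n))) := by
      linarith
    exact le_of_mul_le_mul_left h3 hpos
  have h4 : (4 : ℝ) ^ n * Real.exp (-(2 * n)) = (4 * Real.exp (-2)) ^ n := by
    rw [mul_pow, ← Real.exp_nat_mul]
    congr 2
    ring
  rw [h4] at h1
  have h5 : 4 * Real.exp (-2) < 1 := by
    have h6 : Real.exp (-2) = (Real.exp 1)⁻¹ ^ 2 := by
      rw [← Real.exp_neg, ← Real.exp_nat_mul]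
      norm_num
    have h7 := Real.exp_one_gt_d9
    rw [h6, inv_pow]
    rw [mul_inv_lt_iff₀ (by positivity)]
    nlinarith
  have h8 : (4 * Real.exp (-2)) ^ n < 1 := pow_lt_one₀ (by positivity) h5 (by omega)
  linarith

end Pool.Agent.MP_ec946a.RO
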