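import Pool.Agent.Lib.MP_ec946a_RO.Tools
import Pool.Agent.Lib.MP_ec946a_RO.Pseudo

/-!
# Hybrids of planted games have small value
-/

set_option autoImplicit false

namespace Pool.Agent.MP_ec946a.RO

open Finset

/-- Planted labelings: the labels on the right hand side come from the small alphabet. -/
abbrev Lab (n r : ℕ) : Type := (Fin n → Fin (2 * r)) × (Fin n → Fin r)

variable {n D r K : ℕ}

/-- the permutations for the edge `e` compatible with the labeling `L` -/
def okE (tgt : Fin n × Fin D → Fin n) (L : Lab n r) (e : Fin n × Fin D) :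
    Finset (Equiv.Perm (Fin (2 * r))) := okSet (L.1 e.1) (L.2 (tgt e))

/-- the sets of permutations from which the samples are taken -/
def spl {I : Type} (tgt : Fin n × Fin D → Fin n) (f : I → Lab n r) (i : Option I)
    (e : Fin n × Fin D) : Finset (Equiv.Perm (Fin (2 * r))) :=
  match i with
  | none => univ
  | some i => okE tgt (f i) e

/-- the hybrid of the samples `τ` along the blocks -/
def hyb {I : Type} (blk : Fin n × Fin D → Option (Fin K)) (T : Fin K → I)
    (τ : Option I → Fin n × Fin D → Equiv.Perm (Fin (2 * r))) (e : Fin n × Fin D) :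
    Fin (2 * r) → Fin (2 * r) := proj (τ ((blk e).map T) e)

theorem twoFibres_proj {E : Type} (τ : E → Equiv.Perm (Fin (2 * r))) :
    TwoFibres fun e => proj (τ e) := fun e b => card_fiber_proj (τ e) b

/-- the number of satisfied edges -/
def nsat (tgt : Fin n × Fin D → Fin n) (x : Fin n × Fin D → Fin (2 * r) → Fin (2 * r))
    (MU MV : Fin n → Fin (2 * r)) : ℕ :=
  (univ.filter fun e : Fin n × Fin D => x e (MU e.1) = MV (tgt e)).card

open Classical in
/-- the bad samples: some hybrid has large value -/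
noncomputable def badSet {I : Type} [Fintype I] [DecidableEq I] (tgt : Fin n × Fin D → Fin n)
    (f : I → Lab n r) (blk : Fin n × Fin D → Option (Fin K)) (δ : ℝ) :
    Finset (Option I → Fin n × Fin D → Equiv.Perm (Fin (2 * r))) :=
  (Omega (spl tgt f)).filter fun τ => ∃ T : Fin K → I, Function.Injective T ∧
    ∃ MU MV : Fin n → Fin (2 * r), δ * (D * n) < nsat tgt (hyb blk T τ) MU MV

theorem bad_bound {I : Type} [Fintype I] [DecidableEq I] {tgt : Fin n × Fin D → Fin n}
    (f : I → Lab n r) (blk : Fin n × Fin D → Option (Fin K)) {δ σ g a : ℝ} {F : ℕ}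
    (hn : 1 ≤ n) (hPR : PR n D tgt σ) (hσ : 0 ≤ σ) (hg : 0 ≤ g) (ha : 0 ≤ a)
    (hblk : ∀ j : Fin K, ((univ.filter fun e => blk e = some j).card : ℝ) ≤ g ^ 2 * (D * n))
    (hfU : ∀ i j, i ≠ j → ((univ.filter fun u => (f i).1 u = (f j).1 u).card : ℝ) ≤ a)
    (hfV : ∀ i j, i ≠ j → ((univ.filter fun u => (f i).2 u = (f j).2 u).card : ℝ) ≤ a)
    (hF : F + (g * D * (n + K ^ 2 * a) + K * (σ * (D * n))) ≤ δ * (D * n)) :
    (badSet tgt f blk δ).card * r ^ F ≤
      (Fintype.card I ^ K * (2 * r) ^ (2 * n)) * 2 ^ (n * D) * 2 ^ F *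
        (Omega (spl tgt f)).card := by
  classical
  let Mt : Type := (Fin K → I) × (Fin n → Fin (2 * r)) × (Fin n → Fin (2 * r))
  let sel : Mt → Fin n × Fin D → Option I := fun m e => (blk e).map m.1
  let Ts : Mt → Fin n × Fin D → Finset (Equiv.Perm (Fin (2 * r))) := fun m e =>
    satSet (m.2.1 e.1) (m.2.2 (tgt e))
  let Ag : Mt → Finset (Fin n × Fin D) := fun m => univ.filter fun e => ∃ j, blk e = some j ∧
    e.1 ∈ (univ.filter fun u => m.2.1 u = (f (m.1 j)).1 u) ∧
    tgt e ∈ (univ.filter fun v => m.2.2 v = emb ((f (m.1 j)).2 v))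
  have h := bad_count (spl tgt f) sel Ts Ag r F (by
    rintro m e he
    rcases hb : blk e with _ | j
    · simp only [sel, hb, Option.map_none, spl, Ts]
      exact card_satSet _ _
    · simp only [sel, hb, Option.map_some, spl, Ts, okE]
      apply card_okSet_inter
      rintro ⟨h1, h2⟩
      apply he
      simp only [Ag, mem_filter, mem_univ, true_and]
      exact ⟨j, hb, h1, h2⟩)
  have hM : Fintype.card Mt = Fintype.card I ^ K * (2 * r) ^ (2 * n) := by
    simp only [Mt, Fintype.card_prod, Fintype.card_fun, Fintype.card_fin]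
    rw [two_mul n, pow_add]
  have hE : Fintype.card (Fin n × Fin D) = n * D := by
    rw [Fintype.card_prod, Fintype.card_fin, Fintype.card_fin]
  have hsub : badSet tgt f blk δ ⊆ (Omega (spl tgt f)).filter fun τ => ∃ m, F ≤
      ((univ \ Ag m).filter fun e => τ (sel m e) e ∈ Ts m e).card := by
    intro τ hτ
    rw [badSet, mem_filter] at hτ
    rw [mem_filter]
    refine ⟨hτ.1, ?_⟩
    obtain ⟨T, hT, MU, MV, hlt⟩ := hτ.2
    refine ⟨(T, MU, MV), ?_⟩
    have hag := agree_bound (K := K) hPR hn hσ hg ha blk hblk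
      (fun j => univ.filter fun u => MU u = (f (T j)).1 u)
      (fun j => univ.filter fun v => MV v = emb ((f (T j)).2 v))
      (by
        intro j j' hjj
        refine le_trans ?_ (hfU (T j) (T j') fun h => hjj (hT h))
        have : (univ.filter fun u => MU u = (f (T j)).1 u) ∩
            (univ.filter fun u => MU u = (f (T j')).1 u) ⊆
            univ.filter fun u => (f (T j)).1 u = (f (T j')).1 u := by
          intro u hu
          rw [mem_inter, mem_filter, mem_filter] at hu
          rw [mem_filter]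
          exact ⟨mem_univ _, hu.1.2.symm.trans hu.2.2⟩
        exact_mod_cast card_le_card this)
      (by
        intro j j' hjj
        refine le_trans ?_ (hfV (T j) (T j') fun h => hjj (hT h))
        have : (univ.filter fun u => MV u = emb ((f (T j)).2 u)) ∩
            (univ.filter fun u => MV u = emb ((f (T j')).2 u)) ⊆
            univ.filter fun u => (f (T j)).2 u = (f (T j')).2 u := by
          intro u hu
          rw [mem_inter, mem_filter, mem_filter] at hu
          rw [mem_filter]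
          exact ⟨mem_univ _, emb_injective (hu.1.2.symm.trans hu.2.2)⟩
        exact_mod_cast card_le_card this)
    have hcard : nsat tgt (hyb blk T τ) MU MV ≤
        ((univ \ Ag (T, MU, MV)).filter fun e =>
          τ (sel (T, MU, MV) e) e ∈ Ts (T, MU, MV) e).card + (Ag (T, MU, MV)).card := by
      rw [← card_union_of_disjoint]
      · apply card_le_card
        intro e he
        rw [mem_filter] at he
        rw [mem_union]
        by_cases hea : e ∈ Ag (T, MU, MV)
        · exact Or.inr hea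
        · left
          rw [mem_filter, mem_sdiff]
          refine ⟨⟨mem_univ _, hea⟩, ?_⟩
          simp only [Ts, sel]
          rw [mem_satSet]
          exact he.2
      · rw [disjoint_left]
        intro e he
        rw [mem_filter, mem_sdiff] at he
        exact he.1.2
    have h1 : ((nsat tgt (hyb blk T τ) MU MV : ℕ) : ℝ) ≤
        (((univ \ Ag (T, MU, MV)).filter fun e =>
          τ (sel (T, MU, MV) e) e ∈ Ts (T, MU, MV) e).card : ℝ) +
          ((Ag (T, MU, MV)).card : ℝ) := by exact_mod_cast hcard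
    have h2 : ((Ag (T, MU, MV)).card : ℝ) ≤ g * D * (n + K ^ 2 * a) + K * (σ * (D * n)) := hag
    have h3 : (F : ℝ) ≤ (((univ \ Ag (T, MU, MV)).filter fun e =>
          τ (sel (T, MU, MV) e) e ∈ Ts (T, MU, MV) e).card : ℝ) := by linarith
    exact_mod_cast h3
  calc (badSet tgt f blk δ).card * r ^ F ≤ _ := Nat.mul_le_mul_right _ (card_le_card hsub)
    _ ≤ _ := h
    _ ≤ _ := by
      rw [hM, hE]
      apply Nat.mul_le_mul_right
      apply Nat.mul_le_mul_right
      exact Nat.mul_le_mul_left _ (Nat.choose_le_two_pow _ _)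

/-- The numerical form. -/
theorem exists_good_graph {δ : ℝ} (hδ : 0 < δ) (hδ1 : δ < 1) (K κ w ρ : ℕ) (hK : 1 ≤ K)
    (hρ : 4 ≤ ((ρ : ℝ) - 1) * δ) : ∃ D₀ : ℕ, ∀ D, D₀ ≤ D → ∀ n, 1 ≤ n →
      ∃ tgt : Fin n × Fin D → Fin n, ∀ (I : Type) [Fintype I] [DecidableEq I]
        (f : I → Lab n (2 ^ ρ)), Fintype.card I ≤ 2 ^ (κ * n) →
        (∀ i j, i ≠ j → (univ.filter fun u => (f i).1 u = (f j).1 u).card * K ^ 2 ≤ n) →
        (∀ i j, i ≠ j → (univ.filter fun u => (f i).2 u = (f j).2 u).card * K ^ 2 ≤ n) →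
        ∀ blk : Fin n × Fin D → Option (Fin K),
        (∀ j : Fin K, ((univ.filter fun e => blk e = some j).card : ℝ) ≤
          (δ / 8) ^ 2 * (D * n)) →
        (badSet tgt f blk δ).card * 2 ^ (w * n) ≤ (Omega (spl tgt f)).card := by
  have hK0 : (0 : ℝ) < K := by exact_mod_cast hK
  have hK1 : (1 : ℝ) ≤ K := by exact_mod_cast hK
  set σ : ℝ := δ / (8 * K) with hσdef
  have hσ : 0 < σ := by positivity
  have hσ1 : σ ≤ 1 := by
    rw [hσdef, div_le_one (by positivity)]
    linarith
  refine ⟨max ⌈8 / σ ^ 2⌉₊ (max ⌈8 / δ⌉₊ (κ * K + 2 * (ρ + 1) + w)), ?_⟩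
  intro D hD n hn
  have hn0 : (0 : ℝ) < n := by exact_mod_cast hn
  have hn1 : (1 : ℝ) ≤ n := by exact_mod_cast hn
  have hD1 : 8 / σ ^ 2 ≤ D := (Nat.le_ceil _).trans (by
    exact_mod_cast (le_max_left _ _).trans hD)
  have hD2 : 8 / δ ≤ D := (Nat.le_ceil _).trans (by
    exact_mod_cast ((le_max_left _ _).trans (le_max_right _ _)).trans hD)
  have hD3 : κ * K + 2 * (ρ + 1) + w ≤ D := ((le_max_right _ _).trans (le_max_right _ _)).trans hD
  have hD0 : (0 : ℝ) < D := lt_of_lt_of_le (by positivity) hD2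
  have hD1' : 8 ≤ σ ^ 2 * D := by
    rw [div_le_iff₀ (by positivity)] at hD1
    linarith
  have hD2' : 8 ≤ δ * D := by
    rw [div_le_iff₀ hδ] at hD2
    linarith
  obtain ⟨tgt, hPR⟩ := exists_PR hn hσ hσ1 hD1'
  refine ⟨tgt, ?_⟩
  intro I _ _ f hI hfU hfV blk hblk
  set F : ℕ := ⌈δ * (D * n) / 2⌉₊ with hFdef
  have hFl : δ * (D * n) / 2 ≤ F := Nat.le_ceil _
  have hFu : (F : ℝ) < δ * (D * n) / 2 + 1 := Nat.ceil_lt_add_one (by positivity)
  have hDn : 8 ≤ δ * (D * n) := by nlinarith
  have hb := bad_bound (δ := δ) (a := n / K ^ 2) (g := δ / 8) (F := F) f blk hn hPR hσ.le (by positivity)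
    (by positivity) hblk
    (by
      intro i j hij
      rw [le_div_iff₀ (by positivity)]
      exact_mod_cast hfU i j hij)
    (by
      intro i j hij
      rw [le_div_iff₀ (by positivity)]
      exact_mod_cast hfV i j hij)
    (by
      have h1 : (K : ℝ) ^ 2 * (n / K ^ 2) = n := by field_simp
      have h2 : (K : ℝ) * (σ * (D * n)) = δ * (D * n) / 8 := by
        rw [hσdef]; field_simp
      have h3 : δ / 8 * (D : ℝ) * (n + n) = δ * (D * n) / 4 := by ring
      rw [h1, h2, h3]
      linarith)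
  have h2r : (2 * 2 ^ ρ) ^ (2 * n) = 2 ^ ((ρ + 1) * (2 * n)) := by
    rw [pow_mul 2 (ρ + 1), pow_succ 2 ρ, mul_comm 2 (2 ^ ρ)]
  have h2s : (2 ^ ρ) ^ F = 2 ^ (ρ * F) := by rw [← pow_mul]
  rw [h2r, h2s] at hb
  -- the exponents
  have hρ1 : 1 ≤ ρ := by
    by_contra h
    have : ρ = 0 := by omega
    rw [this] at hρ
    norm_num at hρ
    linarith
  have hexp : 2 * (n * D) + F ≤ ρ * F := by
    have h1 : (2 : ℝ) * (n * D) ≤ ((ρ : ℝ) - 1) * F := by
      have h2 : ((ρ : ℝ) - 1) * (δ * (D * n) / 2) ≤ ((ρ : ℝ) - 1) * F := by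
        apply mul_le_mul_of_nonneg_left hFl
        have : (1 : ℝ) ≤ ρ := by exact_mod_cast hρ1
        linarith
      have h3 : 4 * ((D : ℝ) * n) ≤ (((ρ : ℝ) - 1) * δ) * (D * n) :=
        mul_le_mul_of_nonneg_right hρ (by positivity)
      nlinarith
    have h4 : (2 : ℝ) * (n * D) + F ≤ ρ * F := by linarith
    exact_mod_cast h4
  have hIK : Fintype.card I ^ K ≤ 2 ^ (κ * n * K) := by
    rw [pow_mul]
    exact Nat.pow_le_pow_left hI K
  set B := (badSet tgt f blk δ).card with hB
  set Om := (Omega (spl tgt f)).card with hOm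
  have h3 : (B * 2 ^ (w * n)) * (2 ^ (κ * n * K + (ρ + 1) * (2 * n) + n * D + F)) ≤
      Om * (2 ^ (κ * n * K + (ρ + 1) * (2 * n) + n * D + F)) := by
    calc (B * 2 ^ (w * n)) * (2 ^ (κ * n * K + (ρ + 1) * (2 * n) + n * D + F))
        = B * 2 ^ ((w + κ * K + 2 * (ρ + 1)) * n + n * D + F) := by
          rw [mul_assoc, ← pow_add]
          congr 2
          ring
      _ ≤ B * 2 ^ (ρ * F) := by
          apply Nat.mul_le_mul_left
          apply Nat.pow_le_pow_right (by norm_num)
          have h5 : (w + κ * K + 2 * (ρ + 1)) * n ≤ D * n := Nat.mul_le_mul_right _ (by omega)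
          have h6 : D * n = n * D := mul_comm _ _
          omega
      _ ≤ Fintype.card I ^ K * 2 ^ ((ρ + 1) * (2 * n)) * 2 ^ (n * D) * 2 ^ F * Om := hb
      _ ≤ 2 ^ (κ * n * K) * 2 ^ ((ρ + 1) * (2 * n)) * 2 ^ (n * D) * 2 ^ F * Om := by
          gcongr
      _ = _ := by
          rw [pow_add, pow_add, pow_add]
          ring
  exact Nat.le_of_mul_le_mul_right h3 (by positivity)

end Pool.Agent.MP_ec946a.RO
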