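import Pool.Agent.Lib.MP_ec946a_RO.CircuitDefs

/-!
# Decomposition of decomposable circuits into rectangles with many small blocks
-/

set_option autoImplicit false

namespace Pool.Agent.MP_ec946a.RO

open Finset

section acc

variable {ι β : Type} {C : ℕ → Gate ι β}

/-- Acceptance where the gates in `G` are forced to be true and the tests of variables in `Z` are
forced to be false. -/
inductive Acc (C : ℕ → Gate ι β) (Z : Set ι) (G : Set ℕ) (x : ι → β) : ℕ → Prop
  | forced {k : ℕ} (h : k ∈ G) : Acc C Z G x k
  | lit {k : ℕ} {a : ι} {S : Set β} (h : C k = .lit a S) (hz : a ∉ Z) (hx : x a ∈ S) :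
      Acc C Z G x k
  | const {k : ℕ} (h : C k = .const true) : Acc C Z G x k
  | and {k i j : ℕ} (h : C k = .and i j) (hi : i < k) (hj : j < k) (h1 : Acc C Z G x i)
      (h2 : Acc C Z G x j) : Acc C Z G x k
  | or {k i : ℕ} {l : List ℕ} (h : C k = .or l) (hl : i ∈ l) (hi : i < k)
      (h1 : Acc C Z G x i) : Acc C Z G x k

theorem Acc.mono {Z Z' : Set ι} {G G' : Set ℕ} {x : ι → β} {k : ℕ} (h : Acc C Z G x k)
    (hZ : Z' ⊆ Z) (hG : G ⊆ G') : Acc C Z' G' x k := by
  induction h with
  | forced h => exact .forced (hG h)
  | lit h hz hx => exact .lit h (fun h' => hz (hZ h')) hx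
  | const h => exact .const h
  | and h hi hj _ _ ih1 ih2 => exact .and h hi hj ih1 ih2
  | or h hl hi _ ih => exact .or h hl hi ih

theorem Acc.congr {Z : Set ι} {G : Set ℕ} {x y : ι → β} {k : ℕ} (h : Acc C Z G x k)
    (hxy : ∀ a, Occurs C a k → a ∉ Z → x a = y a) : Acc C Z G y k := by
  induction h with
  | forced h => exact .forced h
  | lit h hz hx => exact .lit h hz (by rw [← hxy _ (.lit h) hz]; exact hx)
  | const h => exact .const h
  | and h hi hj _ _ ih1 ih2 =>
    exact .and h hi hj (ih1 fun a ha => hxy a (.andl h hi hj ha))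
      (ih2 fun a ha => hxy a (.andr h hi hj ha))
  | or h hl hi _ ih => exact .or h hl hi (ih fun a ha => hxy a (.or h hl hi ha))

theorem Acc.avoid {Z W : Set ι} {G : Set ℕ} {x : ι → β} {k : ℕ} (h : Acc C Z G x k)
    (hW : ∀ a, Occurs C a k → a ∉ W) : Acc C (Z ∪ W) G x k := by
  induction h with
  | forced h => exact .forced h
  | lit h hz hx => exact .lit h (by rintro (h' | h'); exacts [hz h', hW _ (.lit h) h']) hx
  | const h => exact .const h
  | and h hi hj _ _ ih1 ih2 =>
    exact .and h hi hj (ih1 fun a ha => hW a (.andl h hi hj ha))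
      (ih2 fun a ha => hW a (.andr h hi hj ha))
  | or h hl hi _ ih => exact .or h hl hi (ih fun a ha => hW a (.or h hl hi ha))

theorem Acc.subst {Z : Set ι} {G : Set ℕ} {x : ι → β} {k g : ℕ} (h : Acc C Z (insert g G) x k)
    (hg : Acc C Z G x g) : Acc C Z G x k := by
  induction h with
  | forced h =>
    rcases h with rfl | h
    · exact hg
    · exact .forced h
  | lit h hz hx => exact .lit h hz hx
  | const h => exact .const h
  | and h hi hj _ _ ih1 ih2 => exact .and h hi hj ih1 ih2
  | or h hl hi _ ih => exact .or h hl hi ih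

theorem Acc.of_eval {x : ι → β} {k : ℕ} (h : Eval C x k) : Acc C ∅ ∅ x k := by
  induction h with
  | lit h hx => exact .lit h (by simp) hx
  | const h => exact .const h
  | and h hi hj _ _ ih1 ih2 => exact .and h hi hj ih1 ih2
  | or h hl hi _ ih => exact .or h hl hi ih

theorem Acc.eval {Z : Set ι} {G : Set ℕ} {x : ι → β} {k : ℕ} (h : Acc C Z G x k)
    (hG : G = ∅) : Eval C x k := by
  induction h with
  | forced h => rw [hG] at h; exact absurd h (by simp)
  | lit h hz hx => exact .lit h hx
  | const h => exact .const h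
  | and h hi hj _ _ ih1 ih2 => exact .and h hi hj ih1 ih2
  | or h hl hi _ ih => exact .or h hl hi ih

/-- The gates to be evaluated separately at gate `g`. -/
def subGates (C : ℕ → Gate ι β) (g c : ℕ) : List ℕ :=
  match C g with
  | .and i j => [i, j]
  | _ => [c]

end acc

section walk

variable {ι β : Type} [Fintype ι] {C : ℕ → Gate ι β}

/-- the number of live variables below gate `k` -/
noncomputable def wt (C : ℕ → Gate ι β) (Z : Set ι) (k : ℕ) : ℕ :=
  {a | Occurs C a k ∧ a ∉ Z}.ncard

omit [Fintype ι] in
theorem wt_eq_zero {Z : Set ι} {k : ℕ} (h : ∀ a, Occurs C a k → a ∈ Z) : wt C Z k = 0 := by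
  unfold wt
  have : {a | Occurs C a k ∧ a ∉ Z} = ∅ := by
    ext a
    simp only [Set.mem_ofPred_eq, Set.mem_empty_iff_false, iff_false, not_and, not_not]
    exact h a
  rw [this, Set.ncard_empty]

/-- What we know about the pair of gates `(g, c)` for the input `x` at gate `k`. -/
structure Cut (C : ℕ → Gate ι β) (Z : Set ι) (G : Set ℕ) (t : ℕ) (x : ι → β) (k g c : ℕ) :
    Prop where
  hg : g ≤ k
  hc : c ≤ k
  acc : Acc C (Z ∪ {a | Occurs C a g}) (insert g G) x k
  heavy : t < wt C Z g
  sub : ∀ a, Occurs C a g → Occurs C a k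
  light : ∀ c' ∈ subGates C g c, wt C Z c' ≤ t
  accsub : ∀ c' ∈ subGates C g c, Acc C Z G x c'
  occ : ∀ c' ∈ subGates C g c, ∀ a, Occurs C a c' → Occurs C a g
  disj : (subGates C g c).Pairwise fun c' c'' => ∀ a, ¬ (Occurs C a c' ∧ Occurs C a c'')
  sound : ∀ y, (∀ c' ∈ subGates C g c, Acc C Z G y c') → Acc C Z G y g

theorem exists_cut {Z : Set ι} {G : Set ℕ} {t : ℕ} (ht : 1 ≤ t) {out : ℕ}
    (hdec : Decomposable C out) (hG : ∀ g ∈ G, ∀ a, Occurs C a g → a ∈ Z) {x : ι → β} {k : ℕ}
    (h : Acc C Z G x k) (hk : k ≤ out) (hw : t < wt C Z k) : ∃ g c, Cut C Z G t x k g c := by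
  induction h with
  | forced h =>
    rw [wt_eq_zero (hG _ h)] at hw
    omega
  | @lit k a S h hz hx =>
    exfalso
    have h1 : {b | Occurs C b k ∧ b ∉ Z} ⊆ {a} := by
      rintro b ⟨hb, _⟩
      cases hb with
      | lit h' =>
        rw [h] at h'
        simp only [Gate.lit.injEq] at h'
        exact h'.1.symm
      | andl h' => rw [h] at h'; exact absurd h' (by simp)
      | andr h' => rw [h] at h'; exact absurd h' (by simp)
      | or h' => rw [h] at h'; exact absurd h' (by simp)
    have h2 : wt C Z k ≤ ({a} : Set ι).ncard := Set.ncard_le_ncard h1 (Set.toFinite _)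
    rw [Set.ncard_singleton] at h2
    omega
  | @const k h =>
    exfalso
    rw [wt_eq_zero] at hw
    · omega
    · intro b hb
      cases hb with
      | lit h' => rw [h] at h'; exact absurd h' (by simp)
      | andl h' => rw [h] at h'; exact absurd h' (by simp)
      | andr h' => rw [h] at h'; exact absurd h' (by simp)
      | or h' => rw [h] at h'; exact absurd h' (by simp)
  | @and k i j h hi hj h1 h2 ih1 ih2 =>
    by_cases hwi : t < wt C Z i
    · obtain ⟨g, c, hcut⟩ := ih1 (by omega) hwi
      refine ⟨g, c, ?_, ?_, ?_, hcut.heavy, ?_, hcut.light, hcut.accsub, hcut.occ, hcut.disj,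
        hcut.sound⟩
      · have := hcut.hg; omega
      · have := hcut.hc; omega
      · refine .and h hi hj hcut.acc ?_
        refine Acc.mono (h2.avoid (W := {a | Occurs C a g}) ?_) subset_rfl
          (Set.subset_insert _ _)
        intro a haj hag
        exact hdec k hk i j h a ⟨hcut.sub a hag, haj⟩
      · intro a ha
        exact .andl h hi hj (hcut.sub a ha)
    · by_cases hwj : t < wt C Z j
      · obtain ⟨g, c, hcut⟩ := ih2 (by omega) hwj
        refine ⟨g, c, ?_, ?_, ?_, hcut.heavy, ?_, hcut.light, hcut.accsub, hcut.occ, hcut.disj,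
          hcut.sound⟩
        · have := hcut.hg; omega
        · have := hcut.hc; omega
        · refine .and h hi hj ?_ hcut.acc
          refine Acc.mono (h1.avoid (W := {a | Occurs C a g}) ?_) subset_rfl
            (Set.subset_insert _ _)
          intro a hai hag
          exact hdec k hk i j h a ⟨hai, hcut.sub a hag⟩
        · intro a ha
          exact .andr h hi hj (hcut.sub a ha)
      · have hs : subGates C k 0 = [i, j] := by simp [subGates, h]
        refine ⟨k, 0, le_rfl, Nat.zero_le _, .forced (Set.mem_insert _ _), hw, fun a ha => ha,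
          ?_, ?_, ?_, ?_, ?_⟩
        · rw [hs]
          simp only [List.mem_cons, List.not_mem_nil, or_false, forall_eq_or_imp, forall_eq]
          exact ⟨by omega, by omega⟩
        · rw [hs]
          simp only [List.mem_cons, List.not_mem_nil, or_false, forall_eq_or_imp, forall_eq]
          exact ⟨h1, h2⟩
        · rw [hs]
          simp only [List.mem_cons, List.not_mem_nil, or_false, forall_eq_or_imp, forall_eq]
          exact ⟨fun a ha => .andl h hi hj ha, fun a ha => .andr h hi hj ha⟩
        · rw [hs]
          simp only [List.pairwise_cons, List.mem_cons, List.not_mem_nil, or_false, forall_eq,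
            List.Pairwise.nil, and_true, false_implies, implies_true]
          exact hdec k hk i j h
        · rw [hs]
          simp only [List.mem_cons, List.not_mem_nil, or_false, forall_eq_or_imp, forall_eq]
          rintro y ⟨hy1, hy2⟩
          exact .and h hi hj hy1 hy2
  | @or k i l h hl hi h1 ih =>
    by_cases hwi : t < wt C Z i
    · obtain ⟨g, c, hcut⟩ := ih (by omega) hwi
      refine ⟨g, c, ?_, ?_, .or h hl hi hcut.acc, hcut.heavy, ?_, hcut.light, hcut.accsub,
        hcut.occ, hcut.disj, hcut.sound⟩
      · have := hcut.hg; omega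
      · have := hcut.hc; omega
      · intro a ha
        exact .or h hl hi (hcut.sub a ha)
    · have hs : subGates C k i = [i] := by simp [subGates, h]
      refine ⟨k, i, le_rfl, hi.le, .forced (Set.mem_insert _ _), hw, fun a ha => ha,
        ?_, ?_, ?_, ?_, ?_⟩
      · rw [hs]
        simp only [List.mem_cons, List.not_mem_nil, or_false, forall_eq]
        omega
      · rw [hs]
        simp only [List.mem_cons, List.not_mem_nil, or_false, forall_eq]
        exact h1
      · rw [hs]
        simp only [List.mem_cons, List.not_mem_nil, or_false, forall_eq]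
        exact fun a ha => .or h hl hi ha
      · rw [hs]
        simp
      · rw [hs]
        simp only [List.mem_cons, List.not_mem_nil, or_false, forall_eq]
        intro y hy
        exact .or h hl hi hy

theorem subGates_length (g c : ℕ) : (subGates C g c).length ≤ 2 := by
  unfold subGates
  split <;> simp

/-- A block: a set of variables and a set of inputs depending only on these variables. -/
structure Block (ι β : Type) where
  B : Set ι
  R : Set (ι → β)
  dep : ∀ x y, (∀ a ∈ B, x a = y a) → x ∈ R → y ∈ R

theorem Block.iff (b : Block ι β) {x y : ι → β} (h : ∀ a ∈ b.B, x a = y a) :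
    x ∈ b.R ↔ y ∈ b.R :=
  ⟨b.dep x y h, b.dep y x fun a ha => (h a ha).symm⟩

/-- the block of a gate -/
def gateBlock (C : ℕ → Gate ι β) (Z : Set ι) (G : Set ℕ) (c : ℕ) : Block ι β where
  B := {a | Occurs C a c ∧ a ∉ Z}
  R := {y | Acc C Z G y c}
  dep := fun _ _ h hx => hx.congr fun a ha hz => h a ⟨ha, hz⟩

open Classical in
/-- The decomposition theorem. -/
theorem exists_blocks {Ω : Type} (X : Ω → ι → β) {t : ℕ} (ht : 1 ≤ t) {out : ℕ}
    (hdec : Decomposable C out) (N : ℕ) : ∀ (Z : Set ι) (G : Set ℕ),
    (∀ g ∈ G, ∀ a, Occurs C a g → a ∈ Z) → wt C Z out ≤ N * t → ∀ S : Finset Ω,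
    (∀ ω ∈ S, Acc C Z G (X ω) out) →
    ∃ bl : List (Block ι β), bl.length ≤ 2 * N + 1 ∧ (∀ b ∈ bl, b.B.ncard ≤ t) ∧
      (∀ b ∈ bl, ∀ a ∈ b.B, a ∉ Z) ∧
      bl.Pairwise (fun b b' => ∀ a, ¬ (a ∈ b.B ∧ a ∈ b'.B)) ∧
      (∀ y, (∀ b ∈ bl, y ∈ b.R) → Acc C Z G y out) ∧
      S.card ≤ ((out + 1) ^ 2) ^ N * (S.filter fun ω => ∀ b ∈ bl, X ω ∈ b.R).card := by
  induction N with
  | zero =>
    intro Z G hG hw S hS
    refine ⟨[gateBlock C Z G out], by simp, ?_, ?_, by simp, ?_, ?_⟩
    · simp only [List.mem_cons, List.not_mem_nil, or_false, forall_eq]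
      have h1 : wt C Z out = 0 := by simpa using hw
      have h2 : (gateBlock C Z G out).B.ncard = wt C Z out := rfl
      omega
    · simp only [List.mem_cons, List.not_mem_nil, or_false, forall_eq]
      exact fun a ha => ha.2
    · simp only [List.mem_cons, List.not_mem_nil, or_false, forall_eq]
      exact fun y hy => hy
    · rw [pow_zero, one_mul]
      apply card_le_card
      intro ω hω
      rw [mem_filter]
      refine ⟨hω, ?_⟩
      simp only [List.mem_cons, List.not_mem_nil, or_false, forall_eq]
      exact hS ω hω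
  | succ N ih =>
    intro Z G hG hw S hS
    by_cases hwt : wt C Z out ≤ t
    · refine ⟨[gateBlock C Z G out], by simp, ?_, ?_, by simp, ?_, ?_⟩
      · simp only [List.mem_cons, List.not_mem_nil, or_false, forall_eq]
        exact hwt
      · simp only [List.mem_cons, List.not_mem_nil, or_false, forall_eq]
        exact fun a ha => ha.2
      · simp only [List.mem_cons, List.not_mem_nil, or_false, forall_eq]
        exact fun y hy => hy
      · have h1 : S.filter (fun ω => ∀ b ∈ [gateBlock C Z G out], X ω ∈ b.R) = S := by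
          rw [filter_eq_self]
          intro ω hω
          simp only [List.mem_cons, List.not_mem_nil, or_false, forall_eq]
          exact hS ω hω
        rw [h1]
        exact Nat.le_mul_of_pos_left _ (by positivity)
    push Not at hwt
    rcases S.eq_empty_or_nonempty with rfl | hne
    · refine ⟨[⟨∅, ∅, fun _ _ _ h => h⟩], by simp, ?_, ?_, by simp, ?_, by simp⟩
      · simp only [List.mem_cons, List.not_mem_nil, or_false, forall_eq]
        simp
      · simp only [List.mem_cons, List.not_mem_nil, or_false, forall_eq]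
        simp
      · simp only [List.mem_cons, List.not_mem_nil, or_false, forall_eq]
        intro y hy
        exact absurd hy (by simp)
    · have hcut : ∀ ω ∈ S, ∃ p : ℕ × ℕ, p ∈ (range (out + 1) ×ˢ range (out + 1)) ∧
          Cut C Z G t (X ω) out p.1 p.2 := by
        intro ω hω
        obtain ⟨g, c, h⟩ := exists_cut ht hdec hG (hS ω hω) le_rfl hwt
        refine ⟨(g, c), ?_, h⟩
        rw [mem_product, mem_range, mem_range]
        have := h.hg
        have := h.hc
        exact ⟨by simp only; omega, by simp only; omega⟩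
      -- pigeonhole
      obtain ⟨p, hp, hpS⟩ : ∃ p ∈ (range (out + 1) ×ˢ range (out + 1)),
          S.card ≤ (out + 1) ^ 2 * (S.filter fun ω => Cut C Z G t (X ω) out p.1 p.2).card := by
        by_contra hcon
        push Not at hcon
        have h1 : S ⊆ (range (out + 1) ×ˢ range (out + 1)).biUnion fun p =>
            S.filter fun ω => Cut C Z G t (X ω) out p.1 p.2 := by
          intro ω hω
          obtain ⟨p, hp, h⟩ := hcut ω hω
          exact mem_biUnion.2 ⟨p, hp, mem_filter.2 ⟨hω, h⟩⟩
        have h2 := (card_le_card h1).trans card_biUnion_le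
        have h3 : (out + 1) ^ 2 * ∑ p ∈ (range (out + 1) ×ˢ range (out + 1)),
            (S.filter fun ω => Cut C Z G t (X ω) out p.1 p.2).card <
            (out + 1) ^ 2 * S.card := by
          rw [mul_sum]
          refine lt_of_lt_of_le (sum_lt_sum_of_nonempty ?_ hcon) ?_
          · exact ⟨(0, 0), by simp⟩
          · rw [sum_const, card_product, card_range, smul_eq_mul, sq]
        have h4 := Nat.mul_le_mul_left ((out + 1) ^ 2) h2
        omega
      obtain ⟨g, c⟩ := p
      simp only at hpS
      set S' := S.filter fun ω => Cut C Z G t (X ω) out g c with hS'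
      have hS'ne : S'.Nonempty := by
        rw [← card_pos]
        by_contra h0
        have h1 : S'.card = 0 := by omega
        rw [h1, mul_zero] at hpS
        have := hne.card_pos
        omega
      obtain ⟨ω₀, hω₀⟩ := hS'ne
      have hC := (mem_filter.1 hω₀).2
      have hG' : ∀ g' ∈ insert g G, ∀ a, Occurs C a g' → a ∈ Z ∪ {a | Occurs C a g} := by
        rintro g' (rfl | hg') a ha
        · exact Or.inr ha
        · exact Or.inl (hG g' hg' a ha)
      have hw' : wt C (Z ∪ {a | Occurs C a g}) out ≤ N * t := by
        have h1 : {a | Occurs C a out ∧ a ∉ Z ∪ {a | Occurs C a g}} ∪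
            {a | Occurs C a g ∧ a ∉ Z} ⊆ {a | Occurs C a out ∧ a ∉ Z} := by
          rintro a (⟨ha1, ha2⟩ | ⟨ha1, ha2⟩)
          · exact ⟨ha1, fun h => ha2 (Or.inl h)⟩
          · exact ⟨hC.sub a ha1, ha2⟩
        have h2 : Disjoint {a | Occurs C a out ∧ a ∉ Z ∪ {a | Occurs C a g}}
            {a | Occurs C a g ∧ a ∉ Z} := by
          rw [Set.disjoint_left]
          rintro a ⟨_, ha2⟩ ⟨ha3, _⟩
          exact ha2 (Or.inr ha3)
        have h3 := Set.ncard_le_ncard h1 (Set.toFinite _)
        rw [Set.ncard_union_eq h2 (Set.toFinite _) (Set.toFinite _)] at h3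
        have h4 := hC.heavy
        have h5 : wt C Z out = {a | Occurs C a out ∧ a ∉ Z}.ncard := rfl
        have h6 : wt C Z g = {a | Occurs C a g ∧ a ∉ Z}.ncard := rfl
        have h7 : wt C (Z ∪ {a | Occurs C a g}) out =
          {a | Occurs C a out ∧ a ∉ Z ∪ {a | Occurs C a g}}.ncard := rfl
        have h8 : (N + 1) * t = N * t + t := by ring
        omega
      obtain ⟨bl, b1, b2, b3, b4, b5, b6⟩ := ih _ _ hG' hw' S'
        (fun ω hω => (mem_filter.1 hω).2.acc)
      refine ⟨bl ++ (subGates C g c).map (gateBlock C Z G), ?_, ?_, ?_, ?_, ?_, ?_⟩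
      · rw [List.length_append, List.length_map]
        have := subGates_length (C := C) g c
        omega
      · intro b hb
        rcases List.mem_append.1 hb with hb | hb
        · exact b2 b hb
        · obtain ⟨c', hc', rfl⟩ := List.mem_map.1 hb
          exact hC.light c' hc'
      · intro b hb a ha
        rcases List.mem_append.1 hb with hb | hb
        · exact fun h => b3 b hb a ha (Or.inl h)
        · obtain ⟨c', hc', rfl⟩ := List.mem_map.1 hb
          exact ha.2
      · rw [List.pairwise_append]
        refine ⟨b4, ?_, ?_⟩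
        · rw [List.pairwise_map]
          refine hC.disj.imp ?_
          rintro c' c'' h a ⟨ha1, ha2⟩
          exact h a ⟨ha1.1, ha2.1⟩
        · rintro b hb b' hb' a ⟨ha, ha'⟩
          obtain ⟨c', hc', rfl⟩ := List.mem_map.1 hb'
          exact b3 b hb a ha (Or.inr (hC.occ c' hc' a ha'.1))
      · intro y hy
        have h1 := b5 y fun b hb => hy b (List.mem_append.2 (Or.inl hb))
        have h2 : Acc C Z G y g := hC.sound y fun c' hc' =>
          hy _ (List.mem_append.2 (Or.inr (List.mem_map.2 ⟨c', hc', rfl⟩)))
        exact Acc.subst (h1.mono Set.subset_union_left subset_rfl) h2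
      · rw [pow_succ]
        calc S.card ≤ (out + 1) ^ 2 * S'.card := hpS
          _ ≤ (out + 1) ^ 2 * (((out + 1) ^ 2) ^ N *
              (S'.filter fun ω => ∀ b ∈ bl, X ω ∈ b.R).card) := Nat.mul_le_mul_left _ b6
          _ = ((out + 1) ^ 2) ^ N * (out + 1) ^ 2 *
              (S'.filter fun ω => ∀ b ∈ bl, X ω ∈ b.R).card := by ring
          _ ≤ _ := by
            apply Nat.mul_le_mul_left
            apply card_le_card
            intro ω hω
            rw [mem_filter] at hω ⊢
            obtain ⟨hω1, hω2⟩ := hω
            rw [hS', mem_filter] at hω1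
            refine ⟨hω1.1, ?_⟩
            intro b hb
            rcases List.mem_append.1 hb with hb | hb
            · exact hω2 b hb
            · obtain ⟨c', hc', rfl⟩ := List.mem_map.1 hb
              exact hω1.2.accsub c' hc'

end walk

end Pool.Agent.MP_ec946a.RO
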