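import Mathlib

/-!
# Decomposable circuits over finite alphabets (DNNF): definitions
-/

set_option autoImplicit false

namespace Pool.Agent.MP_ec946a.RO

/-- The gates of a circuit in negation normal form, with one input variable for each `a : ι`, the
variables taking values in `β`: a test whether the variable `a` has its value in the set `S`, a
constant, the conjunction of two earlier gates, the disjunction of a list of earlier gates.  A
circuit is a sequence `C : ℕ → Gate ι β` together with the number of its output gate; the gates
after the output gate play no role. -/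
inductive Gate (ι β : Type) : Type
  | lit (a : ι) (S : Set β) : Gate ι β
  | const (b : Bool) : Gate ι β
  | and (i j : ℕ) : Gate ι β
  | or (l : List ℕ) : Gate ι β

/-- Gate number `k` of the circuit `C` is true on the input `x`.  (Gates may only refer to earlier
gates: an `and` gate that violates this is false, an `or` gate ignores such references.) -/
inductive Eval {ι β : Type} (C : ℕ → Gate ι β) (x : ι → β) : ℕ → Prop
  | lit {k : ℕ} {a : ι} {S : Set β} (h : C k = .lit a S) (hx : x a ∈ S) : Eval C x k
  | const {k : ℕ} (h : C k = .const true) : Eval C x k
  | and {k i j : ℕ} (h : C k = .and i j) (hi : i < k) (hj : j < k) (h1 : Eval C x i)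
      (h2 : Eval C x j) : Eval C x k
  | or {k i : ℕ} {l : List ℕ} (h : C k = .or l) (hl : i ∈ l) (hi : i < k) (h1 : Eval C x i) :
      Eval C x k

/-- The variable `a` occurs in a test below (or at) gate number `k`. -/
inductive Occurs {ι β : Type} (C : ℕ → Gate ι β) (a : ι) : ℕ → Prop
  | lit {k : ℕ} {S : Set β} (h : C k = .lit a S) : Occurs C a k
  | andl {k i j : ℕ} (h : C k = .and i j) (hi : i < k) (hj : j < k) (ho : Occurs C a i) :
      Occurs C a k
  | andr {k i j : ℕ} (h : C k = .and i j) (hi : i < k) (hj : j < k) (ho : Occurs C a j) :
      Occurs C a k
  | or {k i : ℕ} {l : List ℕ} (h : C k = .or l) (hl : i ∈ l) (hi : i < k) (ho : Occurs C a i) :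
      Occurs C a k

/-- The circuit `C` with output gate `out` is decomposable: no variable occurs below both
arguments of an `and` gate. -/
def Decomposable {ι β : Type} (C : ℕ → Gate ι β) (out : ℕ) : Prop :=
  ∀ k ≤ out, ∀ i j, C k = .and i j → ∀ a, ¬ (Occurs C a i ∧ Occurs C a j)

end Pool.Agent.MP_ec946a.RO
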