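import Pool.Agent.Lib.MP_ec946a_RO.Far
import Pool.Agent.Lib.MP_ec946a_RO.Circuit

/-!
# Exponential lower bound for decomposable circuits
-/

set_option autoImplicit false

namespace Pool.Agent.MP_ec946a.RO

open Finset

variable {n D r : ℕ}

/-- all choices of permutations compatible with the labeling `L` -/
def compat (tgt : Fin n × Fin D → Fin n) (L : Lab n r) :
    Finset (Fin n × Fin D → Equiv.Perm (Fin (2 * r))) := Fintype.piFinset (okE tgt L)

theorem card_compat (hr : 1 ≤ r) (tgt : Fin n × Fin D → Fin n) (L L' : Lab n r) :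
    (compat tgt L).card = (compat tgt L').card := by
  rw [compat, compat, Fintype.card_piFinset, Fintype.card_piFinset]
  apply prod_congr rfl
  intro e _
  have h1 := card_okSet hr (L.1 e.1) (L.2 (tgt e))
  have h2 := card_okSet hr (L'.1 e.1) (L'.2 (tgt e))
  exact Nat.eq_of_mul_eq_mul_right hr (h1.trans h2.symm)

theorem card_compat_pos (hr : 1 ≤ r) (tgt : Fin n × Fin D → Fin n) (L : Lab n r) :
    0 < (compat tgt L).card := by
  rw [compat, Fintype.card_piFinset]
  exact prod_pos fun e _ => card_okSet_pos hr _ _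

/-- the input given by a choice of permutations -/
def inp (τ : Fin n × Fin D → Equiv.Perm (Fin (2 * r))) :
    Fin n × Fin D → Fin (2 * r) → Fin (2 * r) := fun e => proj (τ e)

theorem inp_mem {tgt : Fin n × Fin D → Fin n} {L : Lab n r}
    {τ : Fin n × Fin D → Equiv.Perm (Fin (2 * r))} (h : τ ∈ compat tgt L) (e : Fin n × Fin D) :
    inp τ e (L.1 e.1) = emb (L.2 (tgt e)) := by
  have := (Fintype.mem_piFinset.1 h) e
  exact mem_okSet.1 this

open Classical in
/-- samples for `L` lying in all blocks -/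
noncomputable def inBlocks {K : ℕ} (tgt : Fin n × Fin D → Fin n)
    (b : Fin K → Block (Fin n × Fin D) (Fin (2 * r) → Fin (2 * r))) (L : Lab n r) :
    Finset (Fin n × Fin D → Equiv.Perm (Fin (2 * r))) :=
  (compat tgt L).filter fun τ => ∀ j, inp τ ∈ (b j).R

open Classical in
theorem heavy_blocks (hr : 1 ≤ r) (tgt : Fin n × Fin D → Fin n)
    {C : ℕ → Gate (Fin n × Fin D) (Fin (2 * r) → Fin (2 * r))} {out : ℕ}
    (hdec : Decomposable C out)
    (hacc : ∀ (L : Lab n r), ∀ τ ∈ compat tgt L, Eval C (inp τ) out) {N t : ℕ} (ht : 1 ≤ t)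
    (hN : n * D ≤ N * t) (L₀ : Lab n r) :
    ∃ b : Fin (2 * N + 1) → Block (Fin n × Fin D) (Fin (2 * r) → Fin (2 * r)),
      (∀ j, (b j).B.ncard ≤ t) ∧ (∀ i j, i ≠ j → ∀ a, ¬ (a ∈ (b i).B ∧ a ∈ (b j).B)) ∧
      (∀ y, (∀ j, y ∈ (b j).R) → Eval C y out) ∧
      Fintype.card (Lab n r) ≤ 2 * ((out + 1) ^ 2) ^ N * (univ.filter fun L =>
        (compat tgt L₀).card ≤ 2 * ((out + 1) ^ 2) ^ N * (inBlocks tgt b L).card).card := by
  let Ω : Type := Lab n r × (Fin n × Fin D → Equiv.Perm (Fin (2 * r)))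
  let S : Finset Ω := univ.filter fun p => p.2 ∈ compat tgt p.1
  obtain ⟨bl, b1, b2, b3, b4, b5, b6⟩ := exists_blocks (C := C) (fun p : Ω => inp p.2) ht hdec N
    ∅ ∅ (by simp) (by
      refine le_trans ?_ hN
      unfold wt
      refine (Set.ncard_le_ncard (Set.subset_univ _) (Set.toFinite _)).trans ?_
      rw [Set.ncard_univ, Nat.card_eq_fintype_card, Fintype.card_prod, Fintype.card_fin,
        Fintype.card_fin]) S (by
      intro p hp
      exact Acc.of_eval (hacc p.1 p.2 (mem_filter.1 hp).2))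
  let b : Fin (2 * N + 1) → Block (Fin n × Fin D) (Fin (2 * r) → Fin (2 * r)) := fun j =>
    if h : j.val < bl.length then bl[j.val] else ⟨∅, Set.univ, fun _ _ _ _ => trivial⟩
  have hb : ∀ j : Fin (2 * N + 1), ∀ h : j.val < bl.length, b j = bl[j.val] := by
    intro j h
    simp only [b, dif_pos h]
  have hb' : ∀ j : Fin (2 * N + 1), ¬ j.val < bl.length → (b j).B = ∅ ∧ (b j).R = Set.univ := by
    intro j h
    simp only [b, dif_neg h, and_self]
  have hall : ∀ y, (∀ j, y ∈ (b j).R) ↔ ∀ c ∈ bl, y ∈ c.R := by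
    intro y
    constructor
    · intro h c hc
      obtain ⟨i, hi, rfl⟩ := List.mem_iff_getElem.1 hc
      have := h ⟨i, lt_of_lt_of_le hi b1⟩
      rwa [hb ⟨i, lt_of_lt_of_le hi b1⟩ hi] at this
    · intro h j
      by_cases hj : j.val < bl.length
      · rw [hb j hj]
        exact h _ (List.getElem_mem hj)
      · rw [(hb' j hj).2]
        trivial
  refine ⟨b, ?_, ?_, ?_, ?_⟩
  · intro j
    by_cases hj : j.val < bl.length
    · rw [hb j hj]
      exact b2 _ (List.getElem_mem hj)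
    · rw [(hb' j hj).1, Set.ncard_empty]
      exact Nat.zero_le _
  · intro i j hij a ⟨hai, haj⟩
    by_cases hi : i.val < bl.length
    · by_cases hj : j.val < bl.length
      · rw [hb i hi] at hai
        rw [hb j hj] at haj
        have hne : i.val ≠ j.val := fun h => hij (Fin.ext h)
        rw [List.pairwise_iff_getElem] at b4
        rcases lt_or_gt_of_ne hne with h | h
        · exact b4 i.val j.val hi hj h a ⟨hai, haj⟩
        · exact b4 j.val i.val hj hi h a ⟨haj, hai⟩
      · rw [(hb' j hj).1] at haj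
        exact haj
    · rw [(hb' i hi).1] at hai
      exact hai
  · intro y hy
    exact (b5 y ((hall y).1 hy)).eval rfl
  · apply heavy_count _ _ _ (card_compat_pos hr tgt L₀)
    · intro L
      rw [card_compat hr tgt L₀ L]
      exact card_le_card (filter_subset _ _)
    · have hcount : ∀ (T : Finset Ω), T.card =
          ∑ L : Lab n r, (univ.filter fun τ => ((L, τ) : Ω) ∈ T).card := by
        intro T
        rw [card_eq_sum_card_fiberwise (f := fun ω : Ω => ω.1) (t := univ)
          (fun _ _ => mem_coe.2 (mem_univ _))]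
        apply sum_congr rfl
        intro L _
        apply card_bij (fun ω _ => ω.2)
        · rintro ⟨L', τ⟩ h
          rw [mem_filter] at h
          obtain ⟨h1, rfl⟩ := h
          rw [mem_filter]
          exact ⟨mem_univ _, h1⟩
        · rintro ⟨L', τ⟩ h ⟨L'', τ'⟩ h' heq
          rw [mem_filter] at h h'
          have e1 : L' = L := h.2
          have e2 : L'' = L := h'.2
          have e3 : τ = τ' := heq
          rw [e1, e2, e3]
        · intro τ h
          rw [mem_filter] at h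
          exact ⟨(L, τ), mem_filter.2 ⟨h.2, rfl⟩, rfl⟩
      have hS : S.card = Fintype.card (Lab n r) * (compat tgt L₀).card := by
        rw [hcount]
        have h2 : ∀ L : Lab n r, (univ.filter fun τ => ((L, τ) : Ω) ∈ S).card =
            (compat tgt L₀).card := by
          intro L
          rw [← card_compat hr tgt L L₀]
          congr 1
          ext τ
          simp [S]
        rw [sum_congr rfl fun L _ => h2 L, sum_const, card_univ, smul_eq_mul]
      rw [← hS]
      refine b6.trans ?_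
      apply Nat.mul_le_mul_left
      rw [hcount]
      apply sum_le_sum
      intro L _
      apply card_le_card
      intro τ hτ
      rw [mem_filter, mem_filter] at hτ
      rw [inBlocks, mem_filter]
      exact ⟨(mem_filter.1 hτ.2.1).2, (hall _).2 hτ.2.2⟩

open Classical in
/-- the block containing a given variable -/
noncomputable def blkOf {ι β : Type} {K : ℕ} (b : Fin K → Block ι β) (e : ι) : Option (Fin K) :=
  if h : ∃ j, e ∈ (b j).B then some h.choose else none

theorem blkOf_some {ι β : Type} {K : ℕ} {b : Fin K → Block ι β} {e : ι} {j : Fin K}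
    (h : blkOf b e = some j) : e ∈ (b j).B := by
  unfold blkOf at h
  split_ifs at h with h1
  have h2 := Option.some.inj h
  rw [← h2]
  exact h1.choose_spec

theorem blkOf_eq {ι β : Type} {K : ℕ} {b : Fin K → Block ι β}
    (hdisj : ∀ i j, i ≠ j → ∀ a, ¬ (a ∈ (b i).B ∧ a ∈ (b j).B)) {e : ι} {j : Fin K}
    (h : e ∈ (b j).B) : blkOf b e = some j := by
  have h1 : ∃ j, e ∈ (b j).B := ⟨j, h⟩
  unfold blkOf
  rw [dif_pos h1]
  congr 1
  by_contra hne
  exact hdisj _ _ hne e ⟨h1.choose_spec, h⟩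

theorem good_hybrid (hr : 1 ≤ r) {K : ℕ} (tgt : Fin n × Fin D → Fin n)
    (b : Fin K → Block (Fin n × Fin D) (Fin (2 * r) → Fin (2 * r)))
    (hdisj : ∀ i j, i ≠ j → ∀ a, ¬ (a ∈ (b i).B ∧ a ∈ (b j).B)) (f : Fin K → Lab n r)
    (Q B : ℕ) (hW : ∀ j, (compat tgt (f j)).card ≤ Q * (inBlocks tgt b (f j)).card) {δ : ℝ}
    (hbad : (badSet tgt f (blkOf b) δ).card * B ≤ (Omega (spl tgt f)).card) (hQ : Q ^ K < B) :
    ∃ τ ∈ Omega (spl tgt f), τ ∉ badSet tgt f (blkOf b) δ ∧
      ∀ j, hyb (blkOf b) id τ ∈ (b j).R := by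
  classical
  let gd : Option (Fin K) → Finset (Fin n × Fin D → Equiv.Perm (Fin (2 * r))) := fun i =>
    match i with
    | none => Fintype.piFinset (spl tgt f none)
    | some j => inBlocks tgt b (f j)
  have hsub : ∀ i, gd i ⊆ Fintype.piFinset (spl tgt f i) := by
    rintro (_ | j)
    · exact subset_rfl
    · exact filter_subset _ _
  have hOpos : 0 < (Omega (spl tgt f)).card := by
    rw [Omega, Fintype.card_piFinset]
    apply prod_pos
    rintro (_ | j) _
    · rw [Fintype.card_piFinset]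
      apply prod_pos
      intro e _
      exact card_pos.2 ⟨1, mem_univ _⟩
    · exact card_compat_pos hr tgt (f j)
  have hcard : (Omega (spl tgt f)).card ≤ Q ^ K * (Fintype.piFinset gd).card := by
    rw [Omega, Fintype.card_piFinset, Fintype.card_piFinset, Fintype.prod_option,
      Fintype.prod_option]
    have h1 : ∏ j : Fin K, (Fintype.piFinset (spl tgt f (some j))).card ≤
        ∏ j : Fin K, (Q * (gd (some j)).card) := prod_le_prod' fun j _ => hW j
    rw [prod_mul_distrib, prod_const, card_univ, Fintype.card_fin] at h1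
    calc (Fintype.piFinset (spl tgt f none)).card *
          ∏ j : Fin K, (Fintype.piFinset (spl tgt f (some j))).card
        ≤ (Fintype.piFinset (spl tgt f none)).card * (Q ^ K * ∏ j : Fin K, (gd (some j)).card) :=
          Nat.mul_le_mul_left _ h1
      _ = _ := by
          show _ = Q ^ K * ((Fintype.piFinset (spl tgt f none)).card *
            ∏ j : Fin K, (gd (some j)).card)
          ring
  have hex : ∃ τ ∈ Fintype.piFinset gd, τ ∉ badSet tgt f (blkOf b) δ := by
    by_contra hcon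
    push Not at hcon
    have h1 : (Fintype.piFinset gd).card ≤ (badSet tgt f (blkOf b) δ).card :=
      card_le_card hcon
    have h2 : (Fintype.piFinset gd).card * B ≤ Q ^ K * (Fintype.piFinset gd).card :=
      (Nat.mul_le_mul_right _ h1).trans (hbad.trans hcard)
    have h3 : 0 < (Fintype.piFinset gd).card := by
      by_contra h0
      have h0' : (Fintype.piFinset gd).card = 0 := by omega
      rw [h0', mul_zero] at hcard
      omega
    have h4 : Q ^ K * (Fintype.piFinset gd).card < B * (Fintype.piFinset gd).card :=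
      Nat.mul_lt_mul_of_pos_right hQ h3
    have h5 : B * (Fintype.piFinset gd).card = (Fintype.piFinset gd).card * B := mul_comm _ _
    omega
  obtain ⟨τ, hτ, hτb⟩ := hex
  have hτmem := Fintype.mem_piFinset.1 hτ
  refine ⟨τ, ?_, hτb, ?_⟩
  · rw [Omega, Fintype.mem_piFinset]
    exact fun i => hsub i (hτmem i)
  · intro j
    have h1 : τ (some j) ∈ inBlocks tgt b (f j) := hτmem (some j)
    have h2 : inp (τ (some j)) ∈ (b j).R := (mem_filter.1 h1).2 j
    refine (b j).dep _ _ ?_ h2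
    intro e he
    have h3 := blkOf_eq hdisj he
    simp only [hyb, h3, Option.map_some, id, inp]

/-- The lower bound for a fixed number of edges per vertex. -/
theorem dnnf_core {δ : ℝ} (hδ : 0 < δ) (hδ1 : δ < 1) : ∃ (ρ D : ℕ) (γ : ℝ), 0 < γ ∧ 1 ≤ D ∧
    ∀ n : ℕ, 1 ≤ n → ∃ tgt : Fin n × Fin D → Fin n,
      ∀ (C : ℕ → Gate (Fin n × Fin D) (Fin (2 * 2 ^ ρ) → Fin (2 * 2 ^ ρ))) (out : ℕ),
        Decomposable C out →
        (∀ (L : Lab n (2 ^ ρ)), ∀ τ ∈ compat tgt L, Eval C (inp τ) out) →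
        (∀ τ : Fin n × Fin D → Equiv.Perm (Fin (2 * 2 ^ ρ)),
          (∀ MU MV, ((nsat tgt (inp τ) MU MV : ℕ) : ℝ) ≤ δ * (D * n)) →
            ¬ Eval C (inp τ) out) →
        (2 : ℝ) ^ (γ * n) ≤ out + 1 := by
  classical
  set N : ℕ := ⌈128 / δ ^ 2⌉₊ with hN
  have hN1 : 128 / δ ^ 2 ≤ N := Nat.le_ceil _
  have hN128 : (128 : ℝ) ≤ N * δ ^ 2 := by
    rw [div_le_iff₀ (by positivity)] at hN1
    exact hN1
  have hNpos : 1 ≤ N := by
    by_contra h
    have h0 : N = 0 := by omega
    rw [h0] at hN128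
    norm_num at hN128
  set K : ℕ := 2 * N + 1 with hK
  set ρ : ℕ := ⌈4 / δ + 1⌉₊ + (K + 4) * K ^ 2 with hρ
  have hρ1 : 4 / δ + 1 ≤ ρ := by
    refine (Nat.le_ceil (4 / δ + 1)).trans ?_
    rw [hρ]
    push_cast
    have : (0 : ℝ) ≤ (K + 4) * K ^ 2 := by positivity
    linarith
  have hρ2 : 4 ≤ ((ρ : ℝ) - 1) * δ := by
    have h1 : 4 / δ ≤ (ρ : ℝ) - 1 := by linarith
    rwa [div_le_iff₀ hδ] at h1
  have hρ3 : (K + 4) * K ^ 2 ≤ ρ := by rw [hρ]; exact Nat.le_add_left _ _
  obtain ⟨D₀, hD₀⟩ := exists_good_graph hδ hδ1 K K (K + 1) ρ (by omega) hρ2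
  set D : ℕ := max D₀ ⌈128 / δ ^ 2⌉₊ with hD
  have hDN : N ≤ D := le_max_right _ _
  have hD128 : (128 : ℝ) ≤ D * δ ^ 2 := by
    have : (N : ℝ) ≤ D := by exact_mod_cast hDN
    nlinarith [sq_nonneg δ]
  have hNK0 : (0 : ℝ) < 2 * N * K := by
    have h1 : (1 : ℝ) ≤ N := by exact_mod_cast hNpos
    have h2 : (1 : ℝ) ≤ K := by exact_mod_cast (by omega : 1 ≤ K)
    nlinarith
  refine ⟨ρ, D, 1 / (2 * N * K), by positivity, by omega, ?_⟩
  intro n hn
  have hn0 : (0 : ℝ) < n := by exact_mod_cast hn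
  have hn1 : (1 : ℝ) ≤ n := by exact_mod_cast hn
  obtain ⟨tgt, htgt⟩ := hD₀ D (le_max_left _ _) n hn
  refine ⟨tgt, ?_⟩
  intro C out hdec hyes hno
  by_contra hcon
  push Not at hcon
  have hr : 1 ≤ 2 ^ ρ := Nat.one_le_two_pow
  -- the size as a natural number
  have hs : (out + 1) ^ (2 * N * K) < 2 ^ n := by
    have h1 : ((out : ℝ) + 1) ^ (2 * N * K) < ((2 : ℝ) ^ (1 / (2 * N * K) * (n : ℝ))) ^ (2 * N * K) := by
      apply pow_lt_pow_left₀ hcon (by positivity)
      have : 0 < 2 * N * K := by positivity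
      omega
    have h2 : ((2 : ℝ) ^ (1 / (2 * N * K) * (n : ℝ))) ^ (2 * N * K) = (2 : ℝ) ^ n := by
      rw [← Real.rpow_natCast ((2 : ℝ) ^ (1 / (2 * N * K) * (n : ℝ))) (2 * N * K),
        ← Real.rpow_mul (by norm_num : (0 : ℝ) ≤ 2)]
      have h3 : 1 / (2 * (N : ℝ) * K) * n * ((2 * N * K : ℕ) : ℝ) = (n : ℕ) := by
        rw [Nat.cast_mul, Nat.cast_mul, Nat.cast_ofNat, mul_comm, ← mul_assoc,
          mul_one_div_cancel hNK0.ne', one_mul]
      rw [h3, Real.rpow_natCast]
    rw [h2] at h1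
    exact_mod_cast h1
  set P : ℕ := ((out + 1) ^ 2) ^ N with hP
  have hPK : P ^ K < 2 ^ n := by
    rw [hP, ← pow_mul, ← pow_mul, ← mul_assoc]
    exact hs
  have hP1 : 1 ≤ P := Nat.one_le_pow _ _ (by positivity)
  have hP2 : P < 2 ^ n := by
    refine lt_of_le_of_lt ?_ hPK
    calc P = P ^ 1 := (pow_one P).symm
      _ ≤ P ^ K := Nat.pow_le_pow_right hP1 (by omega)
  -- the blocks
  set t : ℕ := ⌊(δ / 8) ^ 2 * (D * n)⌋₊ with ht
  have htu : (t : ℝ) ≤ (δ / 8) ^ 2 * (D * n) := Nat.floor_le (by positivity)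
  have htl : (δ / 8) ^ 2 * (D * n) < t + 1 := Nat.lt_floor_add_one _
  have hDn2 : 2 ≤ (δ / 8) ^ 2 * ((D : ℝ) * n) := by
    have h1 : (128 : ℝ) * 1 ≤ D * δ ^ 2 * n := mul_le_mul hD128 hn1 (by norm_num) (by positivity)
    nlinarith
  have ht1 : 1 ≤ t := by
    have : (1 : ℝ) < t + 1 := by linarith
    have h2 : (0 : ℝ) < t := by linarith
    exact_mod_cast h2
  have hNt : n * D ≤ N * t := by
    have h1 : (δ / 8) ^ 2 * ((D : ℝ) * n) / 2 ≤ t := by linarith
    have h2 : (N : ℝ) * ((δ / 8) ^ 2 * ((D : ℝ) * n) / 2) ≤ N * t :=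
      mul_le_mul_of_nonneg_left h1 (by positivity)
    have h3 : (N : ℝ) * ((δ / 8) ^ 2 * ((D : ℝ) * n) / 2) =
        (N * δ ^ 2) * (D * n) / 128 := by ring
    have h4 : (128 : ℝ) * (D * n) ≤ (N * δ ^ 2) * (D * n) :=
      mul_le_mul_of_nonneg_right hN128 (by positivity)
    have h5 : (n : ℝ) * D ≤ N * t := by
      rw [h3] at h2
      linarith
    exact_mod_cast h5
  let L₀ : Lab n (2 ^ ρ) := (fun _ => ⟨0, by positivity⟩, fun _ => ⟨0, by positivity⟩)
  obtain ⟨b, hb1, hb2, hb3, hb4⟩ := heavy_blocks hr tgt hdec hyes ht1 hNt L₀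
  -- far labelings
  have hfar : K * 2 ^ (n + 1) * (2 * P) < (2 ^ ρ) ^ (n / K ^ 2 + 1) := by
    have h1 : (K + 4) * n ≤ ρ * (n / K ^ 2 + 1) := by
      have h2 : n < (n / K ^ 2 + 1) * K ^ 2 := by
        have := Nat.lt_div_mul_add (a := n) (b := K ^ 2) (by positivity)
        calc n < n / K ^ 2 * K ^ 2 + K ^ 2 := this
          _ = _ := by ring
      calc (K + 4) * n ≤ (K + 4) * ((n / K ^ 2 + 1) * K ^ 2) := Nat.mul_le_mul_left _ h2.le
        _ = (K + 4) * K ^ 2 * (n / K ^ 2 + 1) := by ring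
        _ ≤ _ := Nat.mul_le_mul_right _ hρ3
    have h3 : K < 2 ^ K := Nat.lt_two_pow_self
    rw [← pow_mul]
    calc K * 2 ^ (n + 1) * (2 * P) ≤ 2 ^ K * 2 ^ (n + 1) * (2 * P) := by gcongr
      _ < 2 ^ K * 2 ^ (n + 1) * (2 * 2 ^ n) := by gcongr
      _ = 2 ^ (K + (n + 1) + (n + 1)) := by
          have h6 : 2 * 2 ^ n = 2 ^ (n + 1) := by rw [pow_succ 2 n, mul_comm]
          rw [pow_add 2 (K + (n + 1)) (n + 1), pow_add 2 K (n + 1), h6]
      _ ≤ 2 ^ (ρ * (n / K ^ 2 + 1)) := by
          apply Nat.pow_le_pow_right (by norm_num)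
          have h4 : K * 1 ≤ K * n := Nat.mul_le_mul_left _ hn
          have h5 : (K + 4) * n = K * n + 4 * n := by ring
          omega
  obtain ⟨f, hf1, hf2⟩ := exists_far_lab _ (n / K ^ 2 + 1) (2 * P) K hb4 hfar hr
  have hblk : ∀ j : Fin K, ((univ.filter fun e => blkOf b e = some j).card : ℝ) ≤
      (δ / 8) ^ 2 * (D * n) := by
    intro j
    refine le_trans ?_ htu
    have h1 : (univ.filter fun e => blkOf b e = some j).card ≤ (b j).B.ncard := by
      rw [← Set.ncard_coe_finset]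
      apply Set.ncard_le_ncard _ (Set.toFinite _)
      intro e he
      rw [mem_coe, mem_filter] at he
      exact blkOf_some he.2
    exact_mod_cast h1.trans (hb1 j)
  have hI : Fintype.card (Fin K) ≤ 2 ^ (K * n) := by
    rw [Fintype.card_fin]
    calc K ≤ 2 ^ K := Nat.lt_two_pow_self.le
      _ ≤ 2 ^ (K * n) := Nat.pow_le_pow_right (by norm_num) (Nat.le_mul_of_pos_right _ hn)
  have hbad := htgt (Fin K) f hI (fun i j hij => (not_close_div (hf2 i j hij)).1)
    (fun i j hij => (not_close_div (hf2 i j hij)).2) (blkOf b) hblk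
  obtain ⟨τ, _, hτb, hτR⟩ := good_hybrid hr tgt b hb2 f (2 * P) (2 ^ ((K + 1) * n))
    (fun j => by
      have := (mem_filter.1 (hf1 j)).2
      rw [card_compat hr tgt (f j) L₀]
      exact this) hbad (by
      rw [mul_pow]
      calc 2 ^ K * P ^ K < 2 ^ K * 2 ^ n := by gcongr
        _ = 2 ^ (K + n) := (pow_add 2 K n).symm
        _ ≤ 2 ^ ((K + 1) * n) := by
          apply Nat.pow_le_pow_right (by norm_num)
          have h4 : K * 1 ≤ K * n := Nat.mul_le_mul_left _ hn
          have h5 : (K + 1) * n = K * n + n := by ring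
          omega)
  -- the hybrid
  have hhyb : hyb (blkOf b) id τ = inp fun e => τ ((blkOf b e).map id) e := rfl
  apply hno (fun e => τ ((blkOf b e).map id) e)
  · intro MU MV
    by_contra hlt
    push Not at hlt
    apply hτb
    rw [badSet, mem_filter]
    exact ⟨by assumption, id, Function.injective_id, MU, MV, hlt⟩
  · rw [← hhyb]
    exact hb3 _ hτR

end Pool.Agent.MP_ec946a.RO
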