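import Pool.Agent.Lib.MP_ec946a_RO.Bad

/-!
# Choosing planted labelings with small agreement
-/

set_option autoImplicit false

namespace Pool.Agent.MP_ec946a.RO

open Finset

variable {n D r K : ℕ}

/-- two planted labelings agree in at least `m` vertices on one side -/
def Close (m : ℕ) (L L' : Lab n r) : Prop :=
  m ≤ (univ.filter fun u => L'.1 u = L.1 u).card ∨ m ≤ (univ.filter fun u => L'.2 u = L.2 u).card

open Classical in
theorem close_count (m : ℕ) (L : Lab n r) :
    (univ.filter (Close m L)).card * r ^ m ≤ 2 ^ (n + 1) * Fintype.card (Lab n r) := by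
  have hU := agree_count L.1 m
  have hV := agree_count L.2 m
  rw [Fintype.card_fin] at hU hV
  set cU := (univ.filter fun g : Fin n → Fin (2 * r) =>
    m ≤ (univ.filter fun u => g u = L.1 u).card).card with hcU
  set cV := (univ.filter fun g : Fin n → Fin r =>
    m ≤ (univ.filter fun u => g u = L.2 u).card).card with hcV
  have hcard : Fintype.card (Lab n r) = (2 * r) ^ n * r ^ n := by
    rw [Fintype.card_prod, Fintype.card_fun, Fintype.card_fun, Fintype.card_fin, Fintype.card_fin,
      Fintype.card_fin]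
  have h1 : (univ.filter (Close m L)).card ≤ cU * r ^ n + (2 * r) ^ n * cV := by
    have hsub : univ.filter (Close m L) ⊆
        ((univ.filter fun g : Fin n → Fin (2 * r) =>
          m ≤ (univ.filter fun u => g u = L.1 u).card) ×ˢ (univ : Finset (Fin n → Fin r))) ∪
        ((univ : Finset (Fin n → Fin (2 * r))) ×ˢ (univ.filter fun g : Fin n → Fin r =>
          m ≤ (univ.filter fun u => g u = L.2 u).card)) := by
      intro L' hL'
      rw [mem_filter] at hL'
      rw [mem_union, mem_product, mem_product, mem_filter, mem_filter]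
      rcases hL'.2 with h | h
      · exact Or.inl ⟨⟨mem_univ _, h⟩, mem_univ _⟩
      · exact Or.inr ⟨mem_univ _, mem_univ _, h⟩
    refine (card_le_card hsub).trans ((card_union_le _ _).trans ?_)
    rw [card_product, card_product, card_univ, card_univ, Fintype.card_fun, Fintype.card_fun,
      Fintype.card_fin, Fintype.card_fin, Fintype.card_fin]
  have hU' : cU * r ^ m ≤ 2 ^ n * (2 * r) ^ n := by
    refine le_trans ?_ hU
    apply Nat.mul_le_mul_left
    exact Nat.pow_le_pow_left (by omega) m
  calc (univ.filter (Close m L)).card * r ^ m ≤ (cU * r ^ n + (2 * r) ^ n * cV) * r ^ m :=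
        Nat.mul_le_mul_right _ h1
    _ = (cU * r ^ m) * r ^ n + (2 * r) ^ n * (cV * r ^ m) := by ring
    _ ≤ (2 ^ n * (2 * r) ^ n) * r ^ n + (2 * r) ^ n * (2 ^ n * r ^ n) :=
        Nat.add_le_add (Nat.mul_le_mul_right _ hU') (Nat.mul_le_mul_left _ hV)
    _ = _ := by rw [hcard, pow_succ]; ring

theorem exists_far_lab (𝓛 : Finset (Lab n r)) (m Q N : ℕ)
    (h𝓛 : Fintype.card (Lab n r) ≤ Q * 𝓛.card) (hlt : N * 2 ^ (n + 1) * Q < r ^ m)
    (hr : 1 ≤ r) :
    ∃ f : Fin N → Lab n r, (∀ j, f j ∈ 𝓛) ∧ ∀ i j, i ≠ j → ¬ Close m (f i) (f j) := by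
  classical
  have hrm : 0 < r ^ m := by positivity
  set c := 2 ^ (n + 1) * Fintype.card (Lab n r) / r ^ m with hc
  apply exists_far (Close m) _ 𝓛 c
  · intro L
    rw [hc, Nat.le_div_iff_mul_le hrm]
    refine le_trans ?_ (close_count m L)
    apply Nat.mul_le_mul_right
    apply card_le_card
    intro x hx
    rw [mem_filter] at hx ⊢
    exact ⟨mem_univ _, hx.2⟩
  · -- N * c < 𝓛.card
    have hpos : 0 < 𝓛.card := by
      by_contra h
      have h0 : 𝓛.card = 0 := by omega
      rw [h0, mul_zero] at h𝓛
      have : 0 < Fintype.card (Lab n r) := by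
        rw [Fintype.card_prod, Fintype.card_fun, Fintype.card_fun, Fintype.card_fin,
          Fintype.card_fin, Fintype.card_fin]
        positivity
      omega
    have h1 : c * r ^ m ≤ 2 ^ (n + 1) * Fintype.card (Lab n r) := Nat.div_mul_le_self _ _
    have h2 : (N * c) * r ^ m < 𝓛.card * r ^ m := by
      calc (N * c) * r ^ m = N * (c * r ^ m) := by ring
        _ ≤ N * (2 ^ (n + 1) * Fintype.card (Lab n r)) := Nat.mul_le_mul_left _ h1
        _ ≤ N * (2 ^ (n + 1) * (Q * 𝓛.card)) := by gcongr
        _ = (N * 2 ^ (n + 1) * Q) * 𝓛.card := by ring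
        _ < r ^ m * 𝓛.card := Nat.mul_lt_mul_of_pos_right hlt hpos
        _ = _ := by ring
    exact lt_of_mul_lt_mul_right h2 (Nat.zero_le _)
  · intro L L' h
    rcases h with h | h
    · left
      have : (univ.filter fun u => L.1 u = L'.1 u) = univ.filter fun u => L'.1 u = L.1 u := by
        ext u; simp [eq_comm]
      rw [this]; exact h
    · right
      have : (univ.filter fun u => L.2 u = L'.2 u) = univ.filter fun u => L'.2 u = L.2 u := by
        ext u; simp [eq_comm]
      rw [this]; exact h

theorem not_close_div {K : ℕ} {L L' : Lab n r} (h : ¬ Close (n / K ^ 2 + 1) L L') :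
    (univ.filter fun u => L.1 u = L'.1 u).card * K ^ 2 ≤ n ∧
      (univ.filter fun u => L.2 u = L'.2 u).card * K ^ 2 ≤ n := by
  unfold Close at h
  push Not at h
  have h1 : (univ.filter fun u => L.1 u = L'.1 u) = univ.filter fun u => L'.1 u = L.1 u := by
    ext u; simp [eq_comm]
  have h2 : (univ.filter fun u => L.2 u = L'.2 u) = univ.filter fun u => L'.2 u = L.2 u := by
    ext u; simp [eq_comm]
  rw [h1, h2]
  have h3 : n / K ^ 2 * K ^ 2 ≤ n := Nat.div_mul_le_self _ _
  constructor
  · exact (Nat.mul_le_mul_right _ (by omega)).trans h3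
  · exact (Nat.mul_le_mul_right _ (by omega)).trans h3

end Pool.Agent.MP_ec946a.RO
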