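import Pool.Agent.Lib.MP_ec946a_Games.Defs

/-!
# Games on a fixed graph and solving the gap problem: definitions
-/

set_option autoImplicit false

namespace Pool.Agent.MP_ec946a.RO

variable {q : ℕ} {U V E : Type}

/-- The assignment `x` of maps to the edges is exactly two-to-one: all fibres of all its maps have
zero or two elements. -/
def TwoFibres (x : E → Fin q → Fin q) : Prop :=
  ∀ e b, Nat.card {a // x e a = b} = 0 ∨ Nat.card {a // x e a = b} = 2

variable [Fintype U] [Fintype V] [Fintype E] [Nonempty E]

/-- The 2-to-1 game with vertex sets `U`, `V` in which the edge `e` joins `src e` to `tgt e` and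
carries the map `x e`. -/
def gameOn (src : E → U) (tgt : E → V) (x : E → Fin q → Fin q) (h : TwoFibres x) : Game q where
  U := U
  V := V
  E := E
  src := src
  tgt := tgt
  proj := x
  two_to_one := fun e b => by rcases h e b with h | h <;> rw [h]; exact Nat.zero_le 2

/-- The acceptance condition `acc` solves the gap problem for the games on the given graph: it
accepts the games of value one and rejects the games of value at most `δ`. -/
def SolvesGap (src : E → U) (tgt : E → V) (δ : ℝ) (acc : (E → Fin q → Fin q) → Prop) : Prop :=
  ∀ x (h : TwoFibres x), ((gameOn src tgt x h).value = 1 → acc x) ∧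
    ((gameOn src tgt x h).value ≤ δ → ¬ acc x)

end Pool.Agent.MP_ec946a.RO
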