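import Pool.Agent.Lib.MP_ec946a_Games.PermCount

/-!
# Random exactly-two-to-one maps
-/

set_option autoImplicit false

namespace Pool.Agent.MP_ec946a.RO

open Finset

section perm

variable {α : Type*} [Fintype α] [DecidableEq α]

/-- permutations mapping `a₀` into `P₀` -/
def atSet (a₀ : α) (P₀ : Finset α) : Finset (Equiv.Perm α) := univ.filter fun s => s a₀ ∈ P₀

theorem mem_atSet {a₀ : α} {P₀ : Finset α} {s : Equiv.Perm α} : s ∈ atSet a₀ P₀ ↔ s a₀ ∈ P₀ := by
  simp [atSet]

/-- Conditionally on `s a₀ ∈ P₀`, the event `s a ∈ P` has probability at most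
`|P| / (|α| - 1)`. -/
theorem cond_count (a₀ a : α) (ha : a ≠ a₀) (P₀ P : Finset α) :
    (Fintype.card α - 1) * (atSet a₀ P₀ ∩ atSet a P).card ≤ P.card * (atSet a₀ P₀).card := by
  classical
  have h1 : ∑ k ∈ univ.erase a₀, (atSet a₀ P₀ ∩ atSet k P).card =
      ∑ s ∈ atSet a₀ P₀, ((univ.erase a₀).filter fun k => s k ∈ P).card := by
    have : ∀ k, (atSet a₀ P₀ ∩ atSet k P).card =
        ∑ s ∈ atSet a₀ P₀, if s k ∈ P then 1 else 0 := by
      intro k
      rw [← card_filter]
      congr 1
      ext s
      simp [mem_atSet]
    simp only [this, card_filter]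
    rw [sum_comm]
  have h2 : ∀ k ∈ univ.erase a₀, (atSet a₀ P₀ ∩ atSet k P).card =
      (atSet a₀ P₀ ∩ atSet a P).card := by
    intro k hk
    have hk' : k ≠ a₀ := by simpa using hk
    apply card_bij (fun s _ => s * Equiv.swap a k)
    · intro s hs
      rw [mem_inter, mem_atSet, mem_atSet] at hs ⊢
      constructor
      · simpa [Equiv.swap_apply_of_ne_of_ne ha.symm hk'.symm] using hs.1
      · simpa using hs.2
    · intro s _ t _ h
      exact mul_right_cancel h
    · intro s hs
      rw [mem_inter, mem_atSet, mem_atSet] at hs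
      refine ⟨s * Equiv.swap a k, ?_, by simp [mul_assoc]⟩
      rw [mem_inter, mem_atSet, mem_atSet]
      constructor
      · simpa [Equiv.swap_apply_of_ne_of_ne ha.symm hk'.symm] using hs.1
      · simpa using hs.2
  have h3 : ∀ s ∈ atSet a₀ P₀, ((univ.erase a₀).filter fun k => s k ∈ P).card ≤ P.card := by
    intro s _
    apply card_le_card_of_injOn s
    · intro x hx
      have : x ∈ (univ.erase a₀).filter fun k => s k ∈ P := hx
      exact (mem_filter.1 this).2
    · intro x _ y _ h
      exact s.injective h
  rw [sum_congr rfl h2, sum_const, smul_eq_mul, card_erase_of_mem (mem_univ _), card_univ] at h1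
  rw [h1]
  refine (sum_le_sum h3).trans ?_
  rw [sum_const, smul_eq_mul, mul_comm]

theorem card_atSet (a : α) (P : Finset α) :
    (atSet a P).card * Fintype.card α ≤ P.card * (Fintype.card α).factorial := by
  have h := card_intoSet ({a} : Finset α) P
  rw [card_singleton, pow_one, pow_one] at h
  have h2 : intoSet {a} P = atSet a P := by
    ext s
    simp [mem_intoSet, mem_atSet]
  rwa [h2] at h

end perm

variable {r : ℕ}

/-- the two-to-one map `Fin (2r) → Fin r` -/
def half (a : Fin (2 * r)) : Fin r := ⟨a.val / 2, by have := a.isLt; omega⟩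

/-- the inclusion `Fin r → Fin (2r)` -/
def emb (b : Fin r) : Fin (2 * r) := ⟨b.val, by have := b.isLt; omega⟩

theorem emb_injective : Function.Injective (emb (r := r)) := by
  intro b b' h
  have := congrArg Fin.val h
  exact Fin.ext this

/-- the projection map attached to a permutation -/
def proj (s : Equiv.Perm (Fin (2 * r))) (a : Fin (2 * r)) : Fin (2 * r) := emb (half (s a))

/-- the preimage of `b` under `half` -/
def fib (b : Fin r) : Finset (Fin (2 * r)) := univ.filter fun a => half a = b

theorem mem_fib {b : Fin r} {a : Fin (2 * r)} : a ∈ fib b ↔ half a = b := by simp [fib]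

theorem card_fib (b : Fin r) : (fib b).card = 2 := by
  have hb := b.isLt
  have h : fib b = {⟨2 * b.val, by omega⟩, ⟨2 * b.val + 1, by omega⟩} := by
    ext a
    rw [mem_fib, mem_insert, mem_singleton, Fin.ext_iff, Fin.ext_iff, Fin.ext_iff]
    simp only [half]
    omega
  rw [h, card_pair]
  intro h
  have := congrArg Fin.val h
  simp at this

/-- every fibre of the projection has zero or two elements -/
theorem card_fiber_proj (s : Equiv.Perm (Fin (2 * r))) (b : Fin (2 * r)) :
    Nat.card {a // proj s a = b} = 0 ∨ Nat.card {a // proj s a = b} = 2 := by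
  by_cases hb : b.val < r
  · right
    have h1 : Nat.card {a // proj s a = b} = ((fib (⟨b.val, hb⟩ : Fin r)).map
        s.symm.toEmbedding).card := by
      rw [Nat.card_eq_fintype_card, Fintype.card_subtype]
      congr 1
      ext a
      simp only [mem_filter, mem_univ, true_and, mem_map_equiv, Equiv.symm_symm, mem_fib]
      constructor
      · intro h
        have := congrArg Fin.val h
        exact Fin.ext this
      · intro h
        have := congrArg Fin.val h
        exact Fin.ext this
    rw [h1, card_map, card_fib]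
  · left
    rw [Nat.card_eq_zero]
    left
    constructor
    rintro ⟨a, ha⟩
    have := congrArg Fin.val ha
    simp only [proj, emb] at this
    have h2 := (half (s a)).isLt
    omega

/-- the permutations satisfying the labels `a`, `b` -/
def okSet (a : Fin (2 * r)) (b : Fin r) : Finset (Equiv.Perm (Fin (2 * r))) := atSet a (fib b)

theorem mem_okSet {a : Fin (2 * r)} {b : Fin r} {s : Equiv.Perm (Fin (2 * r))} :
    s ∈ okSet a b ↔ proj s a = emb b := by
  rw [okSet, mem_atSet, mem_fib]
  exact ⟨fun h => by rw [proj, h], fun h => emb_injective h⟩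

theorem card_okSet (hr : 1 ≤ r) (a : Fin (2 * r)) (b : Fin r) :
    (okSet a b).card * r = (2 * r).factorial := by
  classical
  -- all these sets have the same cardinality and they partition the group
  have h1 : ∀ b' : Fin r, (okSet a b').card = (okSet a b).card := by
    intro b'
    -- a permutation moving the fibre of b' to the fibre of b
    obtain ⟨ρ, hρ⟩ : ∃ ρ : Equiv.Perm (Fin (2 * r)), ∀ x, x ∈ fib b' ↔ ρ x ∈ fib b := by
      have hc : Fintype.card {x // x ∈ fib b'} = Fintype.card {x // x ∈ fib b} := by
        simp [card_fib]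
      refine ⟨(Fintype.equivOfCardEq hc).extendSubtype, fun x => ?_⟩
      constructor
      · intro hx
        exact Equiv.extendSubtype_mem _ x hx
      · intro hx
        by_contra hx'
        exact Equiv.extendSubtype_not_mem _ x hx' hx
    apply card_bij (fun s _ => ρ * s)
    · intro s hs
      rw [okSet, mem_atSet] at hs ⊢
      rw [Equiv.Perm.mul_apply]
      exact (hρ _).1 hs
    · intro s _ t _ h
      exact mul_left_cancel h
    · intro s hs
      rw [okSet, mem_atSet] at hs
      refine ⟨ρ⁻¹ * s, ?_, by simp⟩
      rw [okSet, mem_atSet, hρ]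
      simpa using hs
  have h2 : ∑ b' : Fin r, (okSet a b').card = (2 * r).factorial := by
    have h3 : (univ : Finset (Equiv.Perm (Fin (2 * r)))).card = (2 * r).factorial := by
      rw [card_univ, Fintype.card_perm, Fintype.card_fin]
    rw [← h3, card_eq_sum_card_fiberwise (f := fun s => half (s a)) (t := univ)
      (fun _ _ => mem_coe.2 (mem_univ _))]
    apply sum_congr rfl
    intro b' _
    congr 1
    ext s
    simp [okSet, mem_atSet, mem_fib]
  rw [sum_congr rfl (fun b' _ => h1 b'), sum_const, card_univ, Fintype.card_fin,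
    smul_eq_mul] at h2
  rw [mul_comm]
  exact h2

theorem card_okSet_pos (hr : 1 ≤ r) (a : Fin (2 * r)) (b : Fin r) : 0 < (okSet a b).card := by
  have h := card_okSet hr a b
  have h2 := Nat.factorial_pos (2 * r)
  rw [← h] at h2
  exact Nat.pos_of_mul_pos_right h2

/-- the permutations satisfying the labels `a`, `b`, with `b` in the large alphabet -/
def satSet (a b : Fin (2 * r)) : Finset (Equiv.Perm (Fin (2 * r))) :=
  univ.filter fun s => proj s a = b

theorem mem_satSet {a b : Fin (2 * r)} {s : Equiv.Perm (Fin (2 * r))} :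
    s ∈ satSet a b ↔ proj s a = b := by simp [satSet]

theorem satSet_eq (a b : Fin (2 * r)) : (∃ b' : Fin r, b = emb b' ∧ satSet a b = okSet a b') ∨
    satSet a b = ∅ := by
  by_cases hb : b.val < r
  · left
    refine ⟨⟨b.val, hb⟩, rfl, ?_⟩
    ext s
    rw [mem_satSet, mem_okSet]
    rfl
  · right
    rw [satSet, filter_eq_empty_iff]
    intro s _ h
    have := congrArg Fin.val h
    simp only [proj, emb] at this
    have h2 := (half (s a)).isLt
    omega

/-- unconditional probability -/
theorem card_satSet (a b : Fin (2 * r)) :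
    ((univ : Finset (Equiv.Perm (Fin (2 * r)))) ∩ satSet a b).card * r ≤
      2 * (univ : Finset (Equiv.Perm (Fin (2 * r)))).card := by
  rw [univ_inter]
  rcases satSet_eq a b with ⟨b', _, h⟩ | h
  · rw [h]
    have h1 := card_atSet a (fib b')
    rw [card_fib, Fintype.card_fin] at h1
    rw [card_univ, Fintype.card_perm, Fintype.card_fin]
    unfold okSet
    nlinarith
  · rw [h]
    simp

/-- conditional probability -/
theorem card_okSet_inter (a₀ : Fin (2 * r)) (b₀ : Fin r) (a b : Fin (2 * r))
    (hne : ¬ (a = a₀ ∧ b = emb b₀)) :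
    (okSet a₀ b₀ ∩ satSet a b).card * r ≤ 2 * (okSet a₀ b₀).card := by
  rcases satSet_eq a b with ⟨b', rfl, h⟩ | h
  · rw [h]
    by_cases ha : a = a₀
    · subst ha
      have h1 : okSet a b₀ ∩ okSet a b' = ∅ := by
        ext s
        simp only [mem_inter, mem_okSet, notMem_empty, iff_false, not_and]
        intro h2 h3
        exact hne ⟨rfl, h3.symm.trans h2⟩
      rw [h1]
      simp
    · have h1 := cond_count a₀ a ha (fib b₀) (fib b')
      rw [card_fib, Fintype.card_fin] at h1
      have hr : 1 ≤ r := by have := a.isLt; omega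
      have h2 : r ≤ 2 * r - 1 := by omega
      calc (okSet a₀ b₀ ∩ okSet a b').card * r
          ≤ (okSet a₀ b₀ ∩ okSet a b').card * (2 * r - 1) := Nat.mul_le_mul_left _ h2
        _ = (2 * r - 1) * (atSet a₀ (fib b₀) ∩ atSet a (fib b')).card := by
            rw [mul_comm]; rfl
        _ ≤ _ := h1
  · rw [h]
    simp

end Pool.Agent.MP_ec946a.RO
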