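import Mathlib

/-!
# Random hybrids and agreement sets
-/

set_option autoImplicit false

namespace Pool.Agent.MP_ec946a.RO

open Finset

section bad

variable {J E M A : Type} [Fintype J] [Fintype E] [Fintype M] [DecidableEq J] [DecidableEq E]
  [DecidableEq A]

/-- the sample space -/
abbrev Omega (S : J → E → Finset A) : Finset (J → E → A) :=
  Fintype.piFinset fun j => Fintype.piFinset fun e => S j e

/-- The number of samples for which some `m` has at least `f` satisfied edges outside `Ag m`. -/
theorem bad_count (S : J → E → Finset A) (sel : M → E → J) (T : M → E → Finset A)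
    (Ag : M → Finset E) (r f : ℕ)
    (h : ∀ m, ∀ e, e ∉ Ag m → (S (sel m e) e ∩ T m e).card * r ≤ 2 * (S (sel m e) e).card) :
    ((Omega S).filter fun τ => ∃ m, f ≤ ((univ \ Ag m).filter fun e =>
      τ (sel m e) e ∈ T m e).card).card * r ^ f ≤
      Fintype.card M * (Fintype.card E).choose f * 2 ^ f * (Omega S).card := by
  classical
  let Ev : M × Finset E → Finset (J → E → A) := fun p =>
    Fintype.piFinset fun j => Fintype.piFinset fun e =>
      if e ∈ p.2 ∧ sel p.1 e = j then S j e ∩ T p.1 e else S j e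
  have hEv : ∀ p : M × Finset E, (∀ e ∈ p.2, e ∉ Ag p.1) →
      (Ev p).card * r ^ p.2.card ≤ 2 ^ p.2.card * (Omega S).card := by
    intro p hp
    have key : ∀ c : ℕ, c ^ p.2.card =
        ∏ j : J, ∏ e : E, (if e ∈ p.2 ∧ sel p.1 e = j then c else 1) := by
      intro c
      rw [prod_comm]
      have : ∀ e : E, (∏ j : J, if e ∈ p.2 ∧ sel p.1 e = j then c else 1) =
          if e ∈ p.2 then c else 1 := by
        intro e
        by_cases he : e ∈ p.2
        · simp [he]
        · simp [he]
      rw [prod_congr rfl (fun e _ => this e), prod_ite, prod_const_one, mul_one, prod_const]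
      congr 2
      ext e
      simp
    rw [key r, key 2, Fintype.card_piFinset, Fintype.card_piFinset]
    simp only [Fintype.card_piFinset]
    rw [← prod_mul_distrib, ← prod_mul_distrib]
    apply prod_le_prod'
    intro j _
    rw [← prod_mul_distrib, ← prod_mul_distrib]
    apply prod_le_prod'
    intro e _
    by_cases he : e ∈ p.2 ∧ sel p.1 e = j
    · rw [if_pos he, if_pos he, if_pos he]
      have := h p.1 e (hp e he.1)
      rw [he.2] at this
      exact this
    · rw [if_neg he, if_neg he, if_neg he, mul_one, one_mul]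
  set P : Finset (M × Finset E) := (univ ×ˢ powersetCard f (univ : Finset E)).filter
    fun p => ∀ e ∈ p.2, e ∉ Ag p.1 with hP
  have hsub : ((Omega S).filter fun τ => ∃ m, f ≤ ((univ \ Ag m).filter fun e =>
      τ (sel m e) e ∈ T m e).card) ⊆ P.biUnion Ev := by
    intro τ hτ
    rw [mem_filter] at hτ
    obtain ⟨hτS, m, hm⟩ := hτ
    obtain ⟨F, hF, hFc⟩ := exists_subset_card_eq hm
    rw [mem_biUnion]
    refine ⟨(m, F), ?_, ?_⟩
    · rw [hP, mem_filter, mem_product]
      refine ⟨⟨mem_univ _, mem_powersetCard.2 ⟨subset_univ _, hFc⟩⟩, ?_⟩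
      intro e he
      have := (mem_filter.1 (hF he)).1
      exact (mem_sdiff.1 this).2
    · simp only [Ev]
      rw [Fintype.mem_piFinset]
      intro j
      rw [Fintype.mem_piFinset]
      intro e
      have hτje : τ j e ∈ S j e := by
        have h1 := Fintype.mem_piFinset.1 hτS j
        exact Fintype.mem_piFinset.1 h1 e
      split_ifs with he
      · obtain ⟨he1, rfl⟩ := he
        exact mem_inter.2 ⟨hτje, (mem_filter.1 (hF he1)).2⟩
      · exact hτje
  calc _ ≤ (P.biUnion Ev).card * r ^ f := Nat.mul_le_mul_right _ (card_le_card hsub)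
    _ ≤ (∑ p ∈ P, (Ev p).card) * r ^ f := Nat.mul_le_mul_right _ card_biUnion_le
    _ = ∑ p ∈ P, (Ev p).card * r ^ f := by rw [sum_mul]
    _ ≤ ∑ p ∈ P, 2 ^ f * (Omega S).card := by
        apply sum_le_sum
        intro p hp
        rw [hP, mem_filter, mem_product, mem_powersetCard] at hp
        have := hEv p hp.2
        rwa [hp.1.2.2] at this
    _ = P.card * (2 ^ f * (Omega S).card) := by rw [sum_const, smul_eq_mul]
    _ ≤ (Fintype.card M * (Fintype.card E).choose f) * (2 ^ f * (Omega S).card) := by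
        apply Nat.mul_le_mul_right
        refine (card_filter_le _ _).trans ?_
        rw [card_product, card_univ, card_powersetCard, card_univ]
    _ = _ := by ring

end bad

section agree

variable {n K : ℕ}

/-- Almost disjoint sets: the sum of the cardinalities. -/
theorem sum_card_le (S : Fin K → Finset (Fin n)) (a : ℝ)
    (hS : ∀ j j', j ≠ j' → ((S j ∩ S j').card : ℝ) ≤ a) (ha : 0 ≤ a) :
    ∑ j, ((S j).card : ℝ) ≤ n + K ^ 2 * a := by
  classical
  have h1 : ∑ j, (S j).card = ∑ x : Fin n, (univ.filter fun j => x ∈ S j).card := by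
    simp only [card_filter]
    rw [sum_comm]
    apply sum_congr rfl
    intro j _
    rw [← card_filter]
    congr 1
    ext x; simp
  have h2 : ∑ p ∈ (univ : Finset (Fin K)).offDiag, (S p.1 ∩ S p.2).card =
      ∑ x : Fin n, (univ.filter fun j => x ∈ S j).offDiag.card := by
    have : ∀ x : Fin n, (univ.filter fun j => x ∈ S j).offDiag.card =
        ∑ p ∈ (univ : Finset (Fin K)).offDiag, if x ∈ S p.1 ∩ S p.2 then 1 else 0 := by
      intro x
      rw [← card_filter]
      congr 1
      ext p
      simp only [mem_offDiag, mem_filter, mem_univ, true_and, mem_inter]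
      tauto
    rw [sum_congr rfl (fun x _ => this x), sum_comm]
    apply sum_congr rfl
    intro p _
    rw [← card_filter]
    congr 1
    ext x; simp
  have h3 : ∀ x : Fin n, (univ.filter fun j => x ∈ S j).card ≤
      1 + (univ.filter fun j => x ∈ S j).offDiag.card := by
    intro x
    rw [offDiag_card]
    generalize (univ.filter fun j => x ∈ S j).card = c
    rcases Nat.lt_or_ge c 2 with h | h
    · omega
    · have : c * 2 ≤ c * c := Nat.mul_le_mul_left _ h
      omega
  have h4 : ∑ j, (S j).card ≤ n + ∑ p ∈ (univ : Finset (Fin K)).offDiag, (S p.1 ∩ S p.2).card := by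
    rw [h1, h2]
    refine (sum_le_sum fun x _ => h3 x).trans ?_
    rw [sum_add_distrib, sum_const, card_univ, Fintype.card_fin, smul_eq_mul, mul_one]
  have h5 : (∑ p ∈ (univ : Finset (Fin K)).offDiag, ((S p.1 ∩ S p.2).card : ℝ)) ≤
      ∑ _p ∈ (univ : Finset (Fin K)).offDiag, a := by
    apply sum_le_sum
    intro p hp
    rw [mem_offDiag] at hp
    exact hS _ _ hp.2.2
  rw [sum_const, nsmul_eq_mul, offDiag_card, card_univ, Fintype.card_fin] at h5
  have h6 : ((K * K - K : ℕ) : ℝ) ≤ (K : ℝ) ^ 2 := by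
    rw [sq]
    exact_mod_cast Nat.sub_le _ _
  have h7 : (∑ j, ((S j).card : ℝ)) ≤ n + ∑ p ∈ (univ : Finset (Fin K)).offDiag,
      ((S p.1 ∩ S p.2).card : ℝ) := by exact_mod_cast h4
  have h8 := mul_le_mul_of_nonneg_right h6 ha
  linarith

/-- A pseudorandom graph: every pair of sets spans at most the expected number of edges plus a
small error. -/
def PR (n D : ℕ) (tgt : Fin n × Fin D → Fin n) (σ : ℝ) : Prop :=
  ∀ S T : Finset (Fin n), ((univ.filter fun e : Fin n × Fin D => e.1 ∈ S ∧ tgt e ∈ T).card : ℝ) ≤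
    D * S.card * T.card / n + σ * (D * n)

theorem min_bound {g s t D n : ℝ} (hg : 0 ≤ g) (hs : 0 ≤ s) (ht : 0 ≤ t) (hD : 0 ≤ D)
    (hn : 0 < n) {x c : ℝ} (h1 : x ≤ g ^ 2 * (D * n)) (h2 : x ≤ D * s * t / n + c) (hc : 0 ≤ c) :
    x ≤ g * D * (s + t) / 2 + c := by
  rcases le_total (2 * g * n) (s + t) with h | h
  · have h3 : g * D * (2 * g * n) ≤ g * D * (s + t) := mul_le_mul_of_nonneg_left h (by positivity)
    nlinarith
  · have h3 : s * t ≤ (s + t) ^ 2 / 4 := by nlinarith [sq_nonneg (s - t)]
    have h4 : (s + t) ^ 2 ≤ (s + t) * (2 * g * n) := by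
      rw [sq]
      exact mul_le_mul_of_nonneg_left h (by positivity)
    have h5 : D * s * t / n ≤ g * D * (s + t) / 2 := by
      rw [div_le_iff₀ hn]
      have h6 : D * (s * t) ≤ D * ((s + t) * (2 * g * n) / 4) :=
        mul_le_mul_of_nonneg_left (by linarith) hD
      nlinarith
    linarith

/-- The edges on which a labeling agrees with the labelings of the blocks. -/
theorem agree_bound {D : ℕ} {tgt : Fin n × Fin D → Fin n} {σ g a : ℝ} (hPR : PR n D tgt σ)
    (hn : 1 ≤ n) (hσ : 0 ≤ σ) (hg : 0 ≤ g) (ha : 0 ≤ a) (blk : Fin n × Fin D → Option (Fin K))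
    (hblk : ∀ j : Fin K, ((univ.filter fun e => blk e = some j).card : ℝ) ≤ g ^ 2 * (D * n))
    (S T : Fin K → Finset (Fin n)) (hS : ∀ j j', j ≠ j' → ((S j ∩ S j').card : ℝ) ≤ a)
    (hT : ∀ j j', j ≠ j' → ((T j ∩ T j').card : ℝ) ≤ a) :
    ((univ.filter fun e => ∃ j, blk e = some j ∧ e.1 ∈ S j ∧ tgt e ∈ T j).card : ℝ) ≤
      g * D * (n + K ^ 2 * a) + K * (σ * (D * n)) := by
  classical
  have h1 : (univ.filter fun e => ∃ j, blk e = some j ∧ e.1 ∈ S j ∧ tgt e ∈ T j) ⊆
      univ.biUnion fun j : Fin K =>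
        univ.filter fun e => blk e = some j ∧ e.1 ∈ S j ∧ tgt e ∈ T j := by
    intro e he
    rw [mem_filter] at he
    obtain ⟨_, j, hj⟩ := he
    exact mem_biUnion.2 ⟨j, mem_univ _, mem_filter.2 ⟨mem_univ _, hj⟩⟩
  have h2 := (card_le_card h1).trans card_biUnion_le
  have h3 : ∀ j : Fin K,
      ((univ.filter fun e => blk e = some j ∧ e.1 ∈ S j ∧ tgt e ∈ T j).card : ℝ) ≤
        g * D * ((S j).card + (T j).card) / 2 + σ * (D * n) := by
    intro j
    have hn0 : (0 : ℝ) < n := by exact_mod_cast hn
    apply min_bound hg (by positivity) (by positivity) (by positivity) hn0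
    · refine le_trans ?_ (hblk j)
      have : (univ.filter fun e => blk e = some j ∧ e.1 ∈ S j ∧ tgt e ∈ T j) ⊆
          univ.filter fun e => blk e = some j := by
        intro e he
        rw [mem_filter] at he ⊢
        exact ⟨he.1, he.2.1⟩
      exact_mod_cast card_le_card this
    · refine le_trans ?_ (hPR (S j) (T j))
      have : (univ.filter fun e => blk e = some j ∧ e.1 ∈ S j ∧ tgt e ∈ T j) ⊆
          univ.filter fun e : Fin n × Fin D => e.1 ∈ S j ∧ tgt e ∈ T j := by
        intro e he
        rw [mem_filter] at he ⊢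
        exact ⟨he.1, he.2.2⟩
      exact_mod_cast card_le_card this
    · positivity
  have h4 : ((univ.filter fun e => ∃ j, blk e = some j ∧ e.1 ∈ S j ∧ tgt e ∈ T j).card : ℝ) ≤
      ∑ j : Fin K, (g * D * ((S j).card + (T j).card) / 2 + σ * (D * n)) := by
    have h2' : ((univ.filter fun e => ∃ j, blk e = some j ∧ e.1 ∈ S j ∧ tgt e ∈ T j).card : ℝ) ≤
        ∑ j : Fin K,
          ((univ.filter fun e => blk e = some j ∧ e.1 ∈ S j ∧ tgt e ∈ T j).card : ℝ) := by
      exact_mod_cast h2
    exact h2'.trans (sum_le_sum fun j _ => h3 j)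
  refine h4.trans ?_
  have hSs := sum_card_le S a hS ha
  have hTs := sum_card_le T a hT ha
  have h5 : ∑ j : Fin K, (g * D * ((S j).card + (T j).card) / 2 + σ * (D * n)) =
      g * D / 2 * (∑ j, ((S j).card : ℝ)) + g * D / 2 * (∑ j, ((T j).card : ℝ)) +
        K * (σ * (D * n)) := by
    rw [sum_add_distrib, sum_const, card_univ, Fintype.card_fin, nsmul_eq_mul, mul_sum, mul_sum,
      ← sum_add_distrib]
    congr 1
    apply sum_congr rfl
    intro j _
    ring
  rw [h5]
  have h6 : 0 ≤ g * D / 2 := by positivity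
  have h7 := mul_le_mul_of_nonneg_left hSs h6
  have h8 := mul_le_mul_of_nonneg_left hTs h6
  linarith

end agree

end Pool.Agent.MP_ec946a.RO
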