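import Pool.Agent.Lib.MP_ec946a_RO.GapDefs
import Pool.Agent.Lib.MP_ec946a_RO.Half
import Pool.Agent.Lib.MP_ec946a_RO.Hybrid

/-!
# Value of a game on a fixed graph; heavy elements; choosing far elements; agreement counts
-/

set_option autoImplicit false

namespace Pool.Agent.MP_ec946a.RO

open Finset

section value

variable {q : ℕ} {U V E : Type} [Fintype U] [Fintype V] [Fintype E] [Nonempty E]

theorem gameOn_satisfied (src : E → U) (tgt : E → V) (x : E → Fin q → Fin q) (h : TwoFibres x)
    (LU : U → Fin q) (LV : V → Fin q) : Nat.card ((gameOn src tgt x h).satisfied LU LV) =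
      (univ.filter fun e => x e (LU (src e)) = LV (tgt e)).card := by
  classical
  unfold Game.satisfied
  rw [← Fintype.card_subtype, Nat.card_eq_fintype_card]
  apply Fintype.card_congr
  exact Equiv.refl _

theorem gameOn_value_le (hq : 0 < q) (src : E → U) (tgt : E → V) (x : E → Fin q → Fin q)
    (h : TwoFibres x) (δ : ℝ) (hδ : ∀ (LU : U → Fin q) (LV : V → Fin q),
      ((univ.filter fun e => x e (LU (src e)) = LV (tgt e)).card : ℝ) ≤
        δ * (Fintype.card E : ℝ)) : (gameOn src tgt x h).value ≤ δ := by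
  unfold Game.value
  have : Nonempty (((gameOn src tgt x h).U → Fin q) × ((gameOn src tgt x h).V → Fin q)) :=
    ⟨(fun _ => ⟨0, hq⟩, fun _ => ⟨0, hq⟩)⟩
  apply ciSup_le
  rintro ⟨LU, LV⟩
  have hE : (Nat.card (gameOn src tgt x h).E : ℝ) = (Fintype.card E : ℝ) := by
    rw [show Nat.card (gameOn src tgt x h).E = Fintype.card E from Nat.card_eq_fintype_card]
  have hpos : (0 : ℝ) < (Fintype.card E : ℝ) := by exact_mod_cast Fintype.card_pos
  rw [hE, div_le_iff₀ hpos]
  rw [gameOn_satisfied src tgt x h LU LV]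
  exact hδ LU LV

theorem gameOn_value_eq_one (src : E → U) (tgt : E → V) (x : E → Fin q → Fin q)
    (h : TwoFibres x) (LU : U → Fin q) (LV : V → Fin q)
    (hL : ∀ e, x e (LU (src e)) = LV (tgt e)) : (gameOn src tgt x h).value = 1 := by
  unfold Game.value
  have hpos : (0 : ℝ) < (Fintype.card E : ℝ) := by exact_mod_cast Fintype.card_pos
  have hE : (Nat.card (gameOn src tgt x h).E : ℝ) = (Fintype.card E : ℝ) := by
    rw [show Nat.card (gameOn src tgt x h).E = Fintype.card E from Nat.card_eq_fintype_card]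
  have hle : ∀ L : ((gameOn src tgt x h).U → Fin q) × ((gameOn src tgt x h).V → Fin q),
      (Nat.card ((gameOn src tgt x h).satisfied L.1 L.2) : ℝ) /
        (Nat.card (gameOn src tgt x h).E : ℝ) ≤ 1 := by
    rintro ⟨LU', LV'⟩
    rw [hE, div_le_iff₀ hpos, one_mul, gameOn_satisfied src tgt x h LU' LV']
    exact_mod_cast (card_le_univ _)
  apply le_antisymm
  · have : Nonempty (((gameOn src tgt x h).U → Fin q) × ((gameOn src tgt x h).V → Fin q)) :=
      ⟨(LU, LV)⟩
    exact ciSup_le hle
  · refine le_trans ?_ (le_ciSup ⟨1, ?_⟩ ((LU, LV) :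
      ((gameOn src tgt x h).U → Fin q) × ((gameOn src tgt x h).V → Fin q)))
    · rw [hE, le_div_iff₀ hpos, one_mul, gameOn_satisfied src tgt x h LU LV]
      rw [filter_true_of_mem (fun e _ => hL e), card_univ]
    · rintro _ ⟨L, rfl⟩
      exact hle L

end value

section heavy

/-- Many elements are heavy. -/
theorem heavy_count {Λ : Type} [Fintype Λ] (a : Λ → ℕ) (W P : ℕ) (hW : 0 < W)
    (ha : ∀ L, a L ≤ W) (hsum : Fintype.card Λ * W ≤ P * ∑ L, a L) :
    Fintype.card Λ ≤ 2 * P * (univ.filter fun L => W ≤ 2 * P * a L).card := by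
  classical
  have h1 : ∑ L, a L = ∑ L ∈ univ.filter (fun L => W ≤ 2 * P * a L), a L +
      ∑ L ∈ univ.filter (fun L => ¬ W ≤ 2 * P * a L), a L :=
    (sum_filter_add_sum_filter_not _ _ _).symm
  have h2 : ∑ L ∈ univ.filter (fun L => W ≤ 2 * P * a L), a L ≤
      (univ.filter fun L => W ≤ 2 * P * a L).card * W := by
    refine (sum_le_sum fun L _ => ha L).trans ?_
    rw [sum_const, smul_eq_mul]
  have h3 : 2 * P * ∑ L ∈ univ.filter (fun L => ¬ W ≤ 2 * P * a L), a L ≤
      Fintype.card Λ * W := by
    rw [mul_sum]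
    have h4 : ∀ L ∈ univ.filter (fun L => ¬ W ≤ 2 * P * a L), 2 * P * a L ≤ W := by
      intro L hL
      exact (not_le.1 (mem_filter.1 hL).2).le
    refine (sum_le_sum h4).trans ?_
    rw [sum_const, smul_eq_mul]
    exact Nat.mul_le_mul_right _ (card_le_univ _)
  have h5 : 2 * (Fintype.card Λ * W) ≤
      2 * P * ((univ.filter fun L => W ≤ 2 * P * a L).card * W) + Fintype.card Λ * W := by
    calc 2 * (Fintype.card Λ * W) ≤ 2 * (P * ∑ L, a L) := Nat.mul_le_mul_left _ hsum
      _ = 2 * P * ∑ L ∈ univ.filter (fun L => W ≤ 2 * P * a L), a L +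
          2 * P * ∑ L ∈ univ.filter (fun L => ¬ W ≤ 2 * P * a L), a L := by rw [h1]; ring
      _ ≤ _ := Nat.add_le_add (Nat.mul_le_mul_left _ h2) h3
  have h6 : Fintype.card Λ * W ≤
      (2 * P * (univ.filter fun L => W ≤ 2 * P * a L).card) * W := by
    have : 2 * P * ((univ.filter fun L => W ≤ 2 * P * a L).card * W) =
      (2 * P * (univ.filter fun L => W ≤ 2 * P * a L).card) * W := by ring
    omega
  exact Nat.le_of_mul_le_mul_right h6 hW

/-- Greedy choice of pairwise far elements of a large set. -/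
theorem exists_far {Λ : Type} [DecidableEq Λ] (close : Λ → Λ → Prop) (hs : ∀ x y, close x y → close y x)
    (𝓛 : Finset Λ) (c : ℕ) [∀ x, DecidablePred (close x)]
    (hc : ∀ x, (𝓛.filter (close x)).card ≤ c) :
    ∀ K : ℕ, K * c < 𝓛.card → ∃ f : Fin K → Λ, (∀ j, f j ∈ 𝓛) ∧
      ∀ i j, i ≠ j → ¬ close (f i) (f j) := by
  intro K
  induction K with
  | zero =>
    intro _
    exact ⟨Fin.elim0, fun j => j.elim0, fun i => i.elim0⟩
  | succ K ih =>
    intro h
    have h' : K * c < 𝓛.card := by
      have : (K + 1) * c = K * c + c := by ring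
      omega
    obtain ⟨f, hf1, hf2⟩ := ih h'
    have h2 : ∃ x ∈ 𝓛, ∀ j, ¬ close (f j) x := by
      by_contra hcon
      push Not at hcon
      have h3 : 𝓛 ⊆ univ.biUnion fun j : Fin K => 𝓛.filter (close (f j)) := by
        intro x hx
        obtain ⟨j, hj⟩ := hcon x hx
        exact mem_biUnion.2 ⟨j, mem_univ _, mem_filter.2 ⟨hx, hj⟩⟩
      have h4 := (card_le_card h3).trans card_biUnion_le
      have h5 : ∑ j : Fin K, (𝓛.filter (close (f j))).card ≤ K * c := by
        refine (sum_le_sum fun j _ => hc (f j)).trans ?_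
        rw [sum_const, card_univ, Fintype.card_fin, smul_eq_mul]
      omega
    obtain ⟨x, hx, hxc⟩ := h2
    refine ⟨Fin.snoc f x, ?_, ?_⟩
    · intro j
      refine Fin.lastCases ?_ (fun j => ?_) j
      · rw [Fin.snoc_last]; exact hx
      · rw [Fin.snoc_castSucc]; exact hf1 j
    · intro i j
      refine Fin.lastCases ?_ (fun i => ?_) i
      · refine Fin.lastCases ?_ (fun j => ?_) j
        · intro h; exact absurd rfl h
        · intro _
          rw [Fin.snoc_last, Fin.snoc_castSucc]
          exact fun h => hxc j (hs _ _ h)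
      · refine Fin.lastCases ?_ (fun j => ?_) j
        · intro _
          rw [Fin.snoc_last, Fin.snoc_castSucc]
          exact hxc i
        · intro hij
          rw [Fin.snoc_castSucc, Fin.snoc_castSucc]
          exact hf2 i j fun h => hij (by rw [h])

end heavy

section close

/-- Number of functions agreeing with a given one in many places. -/
theorem agree_count {n : ℕ} {A : Type} [Fintype A] [DecidableEq A] (f : Fin n → A) (m : ℕ) :
    (univ.filter fun g : Fin n → A => m ≤ (univ.filter fun u => g u = f u).card).card *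
      Fintype.card A ^ m ≤ 2 ^ n * Fintype.card A ^ n := by
  classical
  have h := bad_count (J := Unit) (E := Fin n) (M := Unit) (A := A) (fun _ _ => univ)
    (fun _ _ => ()) (fun _ u => {f u}) (fun _ => ∅) (2 * Fintype.card A) m (by
      intro _ u _
      rw [univ_inter, card_singleton, one_mul, card_univ])
  have h1 : ((Omega (J := Unit) (E := Fin n) (A := A) fun _ _ => univ).filter fun τ =>
      ∃ _m : Unit, m ≤ ((univ \ (∅ : Finset (Fin n))).filter fun u => τ () u ∈ ({f u} : Finset A)).card).card =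
      (univ.filter fun g : Fin n → A => m ≤ (univ.filter fun u => g u = f u).card).card := by
    symm
    apply card_bij (fun g _ _ => g)
    · intro g hg
      rw [mem_filter] at hg ⊢
      refine ⟨?_, (), ?_⟩
      · simp [Omega]
      · simpa using hg.2
    · intro g _ g' _ h
      exact congrFun h ()
    · intro τ hτ
      rw [mem_filter] at hτ
      obtain ⟨_, _, hm⟩ := hτ
      refine ⟨τ (), ?_, rfl⟩
      rw [mem_filter]
      refine ⟨mem_univ _, ?_⟩
      simpa using hm
  rw [h1] at h
  have h2 : (Omega (J := Unit) (E := Fin n) (A := A) fun _ _ => univ).card = Fintype.card A ^ n := by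
    simp [Omega, Fintype.card_piFinset]
  rw [h2, Fintype.card_unit, one_mul, Fintype.card_fin] at h
  have h3 : n.choose m ≤ 2 ^ n := Nat.choose_le_two_pow n m
  have h4 : 0 < 2 ^ m := by positivity
  rw [mul_pow] at h
  have h5 : ((univ.filter fun g : Fin n → A => m ≤ (univ.filter fun u => g u = f u).card).card *
      Fintype.card A ^ m) * 2 ^ m ≤ (n.choose m * Fintype.card A ^ n) * 2 ^ m := by
    calc _ = (univ.filter fun g : Fin n → A => m ≤ (univ.filter fun u => g u = f u).card).card *
          (2 ^ m * Fintype.card A ^ m) := by ring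
      _ ≤ _ := h
      _ = _ := by ring
  exact (Nat.le_of_mul_le_mul_right h5 h4).trans (Nat.mul_le_mul_right _ h3)

end close

end Pool.Agent.MP_ec946a.RO
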