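import Pool.Agent.Lib.MP_ec946a_RO.TreeDefs

/-!
# Cutting tree programs into small blocks; replacing blocks one at a time
-/

set_option autoImplicit false

namespace Pool.Agent.MP_ec946a.RO

open Finset

/-- the shape of a tree program -/
inductive Shape (ι : Type) : Type
  | dead : Shape ι
  | leaf (a : ι) : Shape ι
  | node (l r : Shape ι) : Shape ι

/-- variables of a shape -/
def Shape.vars {ι : Type} : Shape ι → List ι
  | .dead => []
  | .leaf a => [a]
  | .node l r => l.vars ++ r.vars

/-- the shape of a program -/
def TreeProg.shape {ι β K : Type} {w : ℕ} : TreeProg ι β K w → Shape ι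
  | .const _ => .dead
  | .leaf a _ => .leaf a
  | .node l r _ => .node l.shape r.shape

theorem TreeProg.vars_shape {ι β K : Type} {w : ℕ} (T : TreeProg ι β K w) :
    T.shape.vars = T.vars := by
  induction T with
  | const v => rfl
  | leaf a g => rfl
  | node l r A ihl ihr => simp only [TreeProg.shape, Shape.vars, TreeProg.vars, ihl, ihr]

/-- killing one subtree -/
inductive SCut {ι : Type} : Shape ι → List ι → Shape ι → Prop
  | here (s : Shape ι) : SCut s s.vars .dead
  | left {l l' : Shape ι} {B : List ι} (r : Shape ι) (h : SCut l B l') :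
      SCut (.node l r) B (.node l' r)
  | right {r r' : Shape ι} {B : List ι} (l : Shape ι) (h : SCut r B r') :
      SCut (.node l r) B (.node l r')

theorem SCut.perm {ι : Type} {s s' : Shape ι} {B : List ι} (h : SCut s B s') :
    s.vars.Perm (B ++ s'.vars) := by
  induction h with
  | here s => simp [Shape.vars]
  | @left l l' B r h ih =>
    simp only [Shape.vars]
    rw [← List.append_assoc]
    exact ih.append_right _
  | @right r r' B l h ih =>
    simp only [Shape.vars]
    refine (ih.append_left l.vars).trans ?_
    rw [← List.append_assoc, ← List.append_assoc]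
    exact List.perm_append_comm.append_right _

/-- a sequence of cuts -/
inductive SCuts {ι : Type} : Shape ι → List (List ι) → Shape ι → Prop
  | nil (s : Shape ι) : SCuts s [] s
  | cons {s s' s'' : Shape ι} {B : List ι} {bs : List (List ι)} (h : SCut s B s')
      (h' : SCuts s' bs s'') : SCuts s (B :: bs) s''

theorem SCuts.perm {ι : Type} {s s' : Shape ι} {bs : List (List ι)} (h : SCuts s bs s') :
    s.vars.Perm (bs.flatten ++ s'.vars) := by
  induction h with
  | nil s => simp
  | @cons s s' s'' B bs h h' ih =>
    rw [List.flatten_cons, List.append_assoc]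
    exact h.perm.trans (ih.append_left B)

theorem exists_two_cuts {ι : Type} {t : ℕ} (ht : 1 ≤ t) (s : Shape ι) (hs : t < s.vars.length) :
    ∃ B₁ s₁ B₂ s₂, SCut s B₁ s₁ ∧ SCut s₁ B₂ s₂ ∧ B₁.length ≤ t ∧ B₂.length ≤ t ∧
      s₂.vars.length + t < s.vars.length := by
  induction s with
  | dead => simp [Shape.vars] at hs
  | leaf a => simp [Shape.vars] at hs; omega
  | node l r ihl ihr =>
    by_cases hl : t < l.vars.length
    · obtain ⟨B₁, s₁, B₂, s₂, h1, h2, h3, h4, h5⟩ := ihl hl
      refine ⟨B₁, .node s₁ r, B₂, .node s₂ r, .left r h1, .left r h2, h3, h4, ?_⟩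
      simp only [Shape.vars, List.length_append]
      omega
    · by_cases hr : t < r.vars.length
      · obtain ⟨B₁, s₁, B₂, s₂, h1, h2, h3, h4, h5⟩ := ihr hr
        refine ⟨B₁, .node l s₁, B₂, .node l s₂, .right l h1, .right l h2, h3, h4, ?_⟩
        simp only [Shape.vars, List.length_append]
        omega
      · refine ⟨l.vars, .node .dead r, r.vars, .node .dead .dead, .left r (.here l),
          .right .dead (.here r), by omega, by omega, ?_⟩
        simp only [Shape.vars, List.length_append] at hs ⊢
        simp only [List.length_nil]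
        omega

theorem dead_cuts {ι : Type} (m : ℕ) :
    SCuts (.dead : Shape ι) (List.replicate m []) .dead := by
  induction m with
  | zero => exact .nil _
  | succ m ih =>
    rw [List.replicate_succ]
    exact .cons (.here .dead) ih

theorem exists_cuts {ι : Type} {t : ℕ} (ht : 1 ≤ t) (N : ℕ) : ∀ s : Shape ι,
    s.vars.length ≤ N * t → ∃ bs s', bs.length = 2 * N + 1 ∧ (∀ B ∈ bs, B.length ≤ t) ∧
      s'.vars = [] ∧ SCuts s bs s' := by
  induction N with
  | zero =>
    intro s hs
    refine ⟨[s.vars], .dead, rfl, ?_, rfl, .cons (.here s) (.nil _)⟩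
    intro B hB
    simp only [List.mem_cons, List.not_mem_nil, or_false] at hB
    subst hB
    omega
  | succ N ih =>
    intro s hs
    by_cases hst : s.vars.length ≤ t
    · refine ⟨s.vars :: List.replicate (2 * N + 2) [], .dead, ?_, ?_, rfl,
        .cons (.here s) (dead_cuts _)⟩
      · rw [List.length_cons, List.length_replicate]
        ring
      · intro B hB
        rcases List.mem_cons.1 hB with rfl | hB
        · exact hst
        · rw [(List.mem_replicate.1 hB).2]
          exact Nat.zero_le _
    · push Not at hst
      obtain ⟨B₁, s₁, B₂, s₂, h1, h2, h3, h4, h5⟩ := exists_two_cuts ht s hst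
      have h6 : s₂.vars.length ≤ N * t := by
        have : (N + 1) * t = N * t + t := by ring
        omega
      obtain ⟨bs, s', hbs, hbt, hs', hc⟩ := ih s₂ h6
      refine ⟨B₁ :: B₂ :: bs, s', ?_, ?_, hs', .cons h1 (.cons h2 hc)⟩
      · rw [List.length_cons, List.length_cons, hbs]
        ring
      · intro B hB
        rcases List.mem_cons.1 hB with rfl | hB
        · exact h3
        · rcases List.mem_cons.1 hB with rfl | hB
          · exact h4
          · exact hbt B hB

section prog

variable {ι β K : Type} [Field K] {w : ℕ}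

open Classical in
/-- the input equal to `z` on `B` and to `x` elsewhere -/
noncomputable def mrg (B : List ι) (z x : ι → β) : ι → β := fun e => if e ∈ B then z e else x e

theorem mrg_mem {B : List ι} {z x : ι → β} {e : ι} (h : e ∈ B) : mrg B z x e = z e := by
  simp [mrg, h]

theorem mrg_notMem {B : List ι} {z x : ι → β} {e : ι} (h : e ∉ B) : mrg B z x e = x e := by
  simp [mrg, h]

theorem vec_congr (T : TreeProg ι β K w) {x y : ι → β} (h : ∀ a ∈ T.vars, x a = y a) :
    T.vec x = T.vec y := by
  induction T with
  | const v => rfl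
  | leaf a g =>
    simp only [TreeProg.vec]
    rw [h a (by simp [TreeProg.vars])]
  | node l r A ihl ihr =>
    simp only [TreeProg.vec]
    rw [ihl fun a ha => h a (by simp [TreeProg.vars, ha]),
      ihr fun a ha => h a (by simp [TreeProg.vars, ha])]

/-- Fixing the variables of a killed subtree. -/
theorem cut_fix {s s' : Shape ι} {B : List ι} (h : SCut s B s') (z : ι → β) :
    ∀ T : TreeProg ι β K w, T.shape = s → T.vars.Nodup →
      ∃ T' : TreeProg ι β K w, T'.shape = s' ∧ ∀ x, T'.vec x = T.vec (mrg B z x) := by
  induction h with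
  | here s =>
    intro T hT _
    refine ⟨.const (T.vec z), rfl, fun x => ?_⟩
    simp only [TreeProg.vec]
    apply vec_congr
    intro a ha
    rw [mrg_mem]
    rw [← hT, T.vars_shape]
    exact ha
  | @left l l' B r h ih =>
    intro T hT hnd
    match T, hT with
    | .node Tl Tr A, hT =>
      simp only [TreeProg.shape, Shape.node.injEq] at hT
      obtain ⟨hl, hr⟩ := hT
      simp only [TreeProg.vars] at hnd
      have hnd' := List.nodup_append.1 hnd
      obtain ⟨T', hT', hvec⟩ := ih Tl hl hnd'.1
      refine ⟨.node T' Tr A, by simp only [TreeProg.shape, hT', hr], fun x => ?_⟩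
      simp only [TreeProg.vec]
      have h1 : Tr.vec x = Tr.vec (mrg B z x) := by
        apply vec_congr
        intro a ha
        rw [mrg_notMem]
        intro haB
        have h2 : a ∈ l.vars := h.perm.mem_iff.2 (List.mem_append.2 (Or.inl haB))
        rw [← hl, Tl.vars_shape] at h2
        exact hnd'.2.2 a h2 a ha rfl
      rw [hvec x, h1]
  | @right r r' B l h ih =>
    intro T hT hnd
    match T, hT with
    | .node Tl Tr A, hT =>
      simp only [TreeProg.shape, Shape.node.injEq] at hT
      obtain ⟨hl, hr⟩ := hT
      simp only [TreeProg.vars] at hnd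
      have hnd' := List.nodup_append.1 hnd
      obtain ⟨T', hT', hvec⟩ := ih Tr hr hnd'.2.1
      refine ⟨.node Tl T' A, by simp only [TreeProg.shape, hT', hl], fun x => ?_⟩
      simp only [TreeProg.vec]
      have h1 : Tl.vec x = Tl.vec (mrg B z x) := by
        apply vec_congr
        intro a ha
        rw [mrg_notMem]
        intro haB
        have h2 : a ∈ r.vars := h.perm.mem_iff.2 (List.mem_append.2 (Or.inl haB))
        rw [← hr, Tr.vars_shape] at h2
        exact hnd'.2.2 a ha a h2 rfl
      rw [hvec x, h1]

/-- The rank at a killed subtree is at most the width. -/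
theorem cut_rank {s s' : Shape ι} {B : List ι} (h : SCut s B s') :
    ∀ T : TreeProg ι β K w, T.shape = s → T.vars.Nodup →
      ∃ (φ : (ι → β) → Fin w → K) (ψ : (ι → β) → Fin w → Fin w → K),
        (∀ x y, (∀ e ∈ B, x e = y e) → φ x = φ y) ∧
        (∀ x y, (∀ e, e ∉ B → x e = y e) → ψ x = ψ y) ∧
        ∀ x k, T.vec x k = ∑ i, φ x i * ψ x i k := by
  classical
  induction h with
  | here s =>
    intro T hT _
    refine ⟨fun x => T.vec x, fun _ i k => if i = k then 1 else 0, ?_, fun _ _ _ => rfl, ?_⟩
    · intro x y hxy
      apply vec_congr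
      intro a ha
      apply hxy
      rw [← hT, T.vars_shape]
      exact ha
    · intro x k
      simp
  | @left l l' B r h ih =>
    intro T hT hnd
    match T, hT with
    | .node Tl Tr A, hT =>
      simp only [TreeProg.shape, Shape.node.injEq] at hT
      obtain ⟨hl, hr⟩ := hT
      simp only [TreeProg.vars] at hnd
      have hnd' := List.nodup_append.1 hnd
      obtain ⟨φ, ψ, h1, h2, h3⟩ := ih Tl hl hnd'.1
      refine ⟨φ, fun x i k => ∑ a, ∑ b, A k a b * (ψ x i a * Tr.vec x b), h1, ?_, ?_⟩
      · intro x y hxy
        have h4 : Tr.vec x = Tr.vec y := by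
          apply vec_congr
          intro a ha
          apply hxy
          intro haB
          have h2 : a ∈ l.vars := h.perm.mem_iff.2 (List.mem_append.2 (Or.inl haB))
          rw [← hl, Tl.vars_shape] at h2
          exact hnd'.2.2 a h2 a ha rfl
        simp only [h2 x y hxy, h4]
      · intro x k
        simp only [TreeProg.vec]
        have h5 : ∀ i, φ x i * ∑ a, ∑ b, A k a b * (ψ x i a * Tr.vec x b) =
            ∑ a, ∑ b, A k a b * ((φ x i * ψ x i a) * Tr.vec x b) := by
          intro i
          rw [mul_sum]
          apply sum_congr rfl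
          intro a _
          rw [mul_sum]
          apply sum_congr rfl
          intro b _
          ring
        rw [sum_congr rfl fun i _ => h5 i]
        symm
        rw [sum_comm]
        apply sum_congr rfl
        intro a _
        rw [sum_comm]
        apply sum_congr rfl
        intro b _
        rw [h3 x a, sum_mul, mul_sum]
  | @right r r' B l h ih =>
    intro T hT hnd
    match T, hT with
    | .node Tl Tr A, hT =>
      simp only [TreeProg.shape, Shape.node.injEq] at hT
      obtain ⟨hl, hr⟩ := hT
      simp only [TreeProg.vars] at hnd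
      have hnd' := List.nodup_append.1 hnd
      obtain ⟨φ, ψ, h1, h2, h3⟩ := ih Tr hr hnd'.2.1
      refine ⟨φ, fun x i k => ∑ a, ∑ b, A k a b * (Tl.vec x a * ψ x i b), h1, ?_, ?_⟩
      · intro x y hxy
        have h4 : Tl.vec x = Tl.vec y := by
          apply vec_congr
          intro a ha
          apply hxy
          intro haB
          have h2 : a ∈ r.vars := h.perm.mem_iff.2 (List.mem_append.2 (Or.inl haB))
          rw [← hr, Tr.vars_shape] at h2
          exact hnd'.2.2 a ha a h2 rfl
        simp only [h2 x y hxy, h4]
      · intro x k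
        simp only [TreeProg.vec]
        have h5 : ∀ i, φ x i * ∑ a, ∑ b, A k a b * (Tl.vec x a * ψ x i b) =
            ∑ a, ∑ b, A k a b * (Tl.vec x a * (φ x i * ψ x i b)) := by
          intro i
          rw [mul_sum]
          apply sum_congr rfl
          intro a _
          rw [mul_sum]
          apply sum_congr rfl
          intro b _
          ring
        rw [sum_congr rfl fun i _ => h5 i]
        symm
        rw [sum_comm]
        apply sum_congr rfl
        intro a _
        rw [sum_comm]
        apply sum_congr rfl
        intro b _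
        rw [h3 x b, mul_sum, mul_sum]

/-- The rank condition along a list of blocks. -/
def RankCond (w : ℕ) : List (List ι) → ((ι → β) → K) → Prop
  | [], F => ∀ x y, F x = F y
  | B :: bs, F => (∃ (φ ψ : (ι → β) → Fin w → K),
      (∀ x y, (∀ e ∈ B, x e = y e) → φ x = φ y) ∧
      (∀ x y, (∀ e, e ∉ B → x e = y e) → ψ x = ψ y) ∧ ∀ x, F x = ∑ i, φ x i * ψ x i) ∧
      ∀ z, RankCond w bs fun x => F (mrg B z x)

theorem rankCond_of_cuts {s s' : Shape ι} {bs : List (List ι)} (h : SCuts s bs s')
    (hs' : s'.vars = []) (o : Fin w → K) : ∀ T : TreeProg ι β K w, T.shape = s →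
      T.vars.Nodup → RankCond w bs fun x => T.out o x := by
  induction h with
  | nil s =>
    intro T hT _ x y
    have h1 : T.vec x = T.vec y := by
      apply vec_congr
      intro a ha
      rw [← T.vars_shape, hT, hs'] at ha
      exact absurd ha (by simp)
    simp only [TreeProg.out, h1]
  | @cons s s' s'' B bs h h' ih =>
    intro T hT hnd
    refine ⟨?_, ?_⟩
    · obtain ⟨φ, ψ, h1, h2, h3⟩ := cut_rank h T hT hnd
      refine ⟨φ, fun x i => ∑ k, o k * ψ x i k, h1, ?_, ?_⟩
      · intro x y hxy
        simp only [h2 x y hxy]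
      · intro x
        simp only [TreeProg.out, h3 x, mul_sum]
        rw [sum_comm]
        apply sum_congr rfl
        intro i _
        apply sum_congr rfl
        intro k _
        ring
    · intro z
      obtain ⟨T', hT', hvec⟩ := cut_fix h z T hT hnd
      have hnd' : T'.vars.Nodup := by
        rw [← T'.vars_shape, hT']
        have h1 : s.vars.Nodup := by rw [← hT, T.vars_shape]; exact hnd
        exact (List.nodup_append.1 (h.perm.nodup_iff.1 h1)).2.1
      have h2 := ih hs' T' hT' hnd'
      have h3 : (fun x => T.out o (mrg B z x)) = fun x => T'.out o x := by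
        funext x
        simp only [TreeProg.out, hvec x]
      rw [h3]
      exact h2

/-- A small family of indices whose vectors span the vectors of all indices outside `U`. -/
theorem exists_small_basis {I : Type} [Fintype I] [DecidableEq I] (v : I → Fin w → K)
    (U : Finset I) : ∃ ℬ : Finset I, ℬ.card ≤ w ∧ (∀ b ∈ ℬ, b ∉ U) ∧
      ∀ L, L ∉ U → v L ∈ Submodule.span K (v '' (ℬ : Set I)) := by
  classical
  obtain ⟨κ, a, ha, hspan, hli⟩ := exists_linearIndependent' K (fun i : {i // i ∉ U} => v i.1)
  have hfin : Finite κ := Finite.of_injective a ha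
  have := Fintype.ofFinite κ
  refine ⟨univ.image fun k => (a k).1, ?_, ?_, ?_⟩
  · refine card_image_le.trans ?_
    rw [card_univ]
    have h1 := hli.fintype_card_le_finrank
    rwa [Module.finrank_fin_fun] at h1
  · intro b hb
    rw [mem_image] at hb
    obtain ⟨k, _, rfl⟩ := hb
    exact (a k).2
  · intro L hL
    have h1 : v L ∈ Submodule.span K (Set.range fun i : {i // i ∉ U} => v i.1) :=
      Submodule.subset_span ⟨⟨L, hL⟩, rfl⟩
    rw [← hspan] at h1
    refine Submodule.span_mono ?_ h1
    rintro _ ⟨k, rfl⟩
    exact ⟨(a k).1, by simp, rfl⟩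

/-- Replacing the blocks one at a time. -/
theorem replace_blocks {I : Type} [Fintype I] [DecidableEq I] (X : I → ι → β) :
    ∀ (bs : List (List ι)) (F : (ι → β) → K) (U : Finset I), RankCond w bs F →
      ∃ Ex : Finset I, Ex.card + 1 ≤ (w + 1) ^ bs.length ∧ ∀ L, L ∉ Ex → L ∉ U → F (X L) ≠ 0 →
        ∃ Ls : List I, Ls.Nodup ∧ (∀ b ∈ Ls, b ∉ U) ∧ Ls.length = bs.length ∧
          ∀ y, List.Forall₂ (fun (B : List ι) (b : I) => ∀ e ∈ B, y e = X b e) bs Ls →
            F y ≠ 0 := by
  classical
  intro bs
  induction bs with
  | nil =>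
    intro F U hF
    refine ⟨∅, by simp, ?_⟩
    intro L _ _ hL
    refine ⟨[], List.nodup_nil, by simp, rfl, fun y _ => ?_⟩
    rw [hF y (X L)]
    exact hL
  | cons B bs ih =>
    intro F U hF
    obtain ⟨⟨φ, ψ, h1, h2, h3⟩, h4⟩ := hF
    obtain ⟨ℬ, hb1, hb2, hb3⟩ := exists_small_basis (fun i => φ (X i)) U
    choose Ex hEx1 hEx2 using fun b : I => ih (fun x => F (mrg B (X b) x)) (insert b U) (h4 (X b))
    refine ⟨ℬ ∪ ℬ.biUnion Ex, ?_, ?_⟩
    · have h5 : (ℬ ∪ ℬ.biUnion Ex).card ≤ ℬ.card + ∑ b ∈ ℬ, (Ex b).card :=
        (card_union_le _ _).trans (Nat.add_le_add_left card_biUnion_le _)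
      have h6 : ℬ.card + ∑ b ∈ ℬ, (Ex b).card ≤ w * (w + 1) ^ bs.length := by
        calc ℬ.card + ∑ b ∈ ℬ, (Ex b).card = ∑ b ∈ ℬ, ((Ex b).card + 1) := by
              rw [sum_add_distrib, sum_const, smul_eq_mul, mul_one, add_comm]
          _ ≤ ∑ b ∈ ℬ, (w + 1) ^ bs.length := sum_le_sum fun b _ => hEx1 b
          _ = ℬ.card * (w + 1) ^ bs.length := by rw [sum_const, smul_eq_mul]
          _ ≤ _ := Nat.mul_le_mul_right _ hb1
      have h7 : 1 ≤ (w + 1) ^ bs.length := Nat.one_le_pow _ _ (by omega)
      rw [List.length_cons, pow_succ]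
      have h8 : (w + 1) ^ bs.length * (w + 1) = w * (w + 1) ^ bs.length + (w + 1) ^ bs.length := by
        ring
      omega
    · intro L hLE hLU hFL
      rw [mem_union, not_or] at hLE
      -- some basis element works
      have h5 : ∃ b ∈ ℬ, ∑ i, φ (X b) i * ψ (X L) i ≠ 0 := by
        by_contra hcon
        push Not at hcon
        apply hFL
        rw [h3]
        have h6 : ∀ u ∈ Submodule.span K ((fun i => φ (X i)) '' (ℬ : Set I)),
            ∑ i, u i * ψ (X L) i = 0 := by
          intro u hu
          induction hu using Submodule.span_induction with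
          | mem u hu =>
            obtain ⟨b, hb, rfl⟩ := hu
            exact hcon b (mem_coe.1 hb)
          | zero => simp
          | add u v _ _ hu hv =>
            simp only [Pi.add_apply, add_mul, sum_add_distrib, hu, hv, add_zero]
          | smul c u _ hu =>
            simp only [Pi.smul_apply, smul_eq_mul, mul_assoc]
            rw [← mul_sum, hu, mul_zero]
        exact h6 _ (hb3 L hLU)
      obtain ⟨b, hb, hbne⟩ := h5
      have hLb : L ≠ b := fun h => hLE.1 (h ▸ hb)
      have h6 : F (mrg B (X b) (X L)) ≠ 0 := by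
        rw [h3]
        have h7 : φ (mrg B (X b) (X L)) = φ (X b) := h1 _ _ fun e he => mrg_mem he
        have h8 : ψ (mrg B (X b) (X L)) = ψ (X L) := h2 _ _ fun e he => mrg_notMem he
        rw [h7, h8]
        exact hbne
      obtain ⟨Ls, g1, g2, g3, g4⟩ := hEx2 b L
        (fun h => hLE.2 (mem_biUnion.2 ⟨b, hb, h⟩))
        (by rw [mem_insert, not_or]; exact ⟨hLb, hLU⟩) h6
      refine ⟨b :: Ls, ?_, ?_, ?_, ?_⟩
      · rw [List.nodup_cons]
        exact ⟨fun h => g2 b h (mem_insert_self _ _), g1⟩
      · intro c hc
        rcases List.mem_cons.1 hc with rfl | hc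
        · exact hb2 c hb
        · exact fun h => g2 c hc (mem_insert_of_mem h)
      · rw [List.length_cons, List.length_cons, g3]
      · intro y hy
        rw [List.forall₂_cons] at hy
        have h7 : mrg B (X b) y = y := by
          funext e
          by_cases he : e ∈ B
          · rw [mrg_mem he, hy.1 e he]
          · rw [mrg_notMem he]
        have h8 := g4 y hy.2
        rw [h7] at h8
        exact h8

end prog

end Pool.Agent.MP_ec946a.RO
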