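import Mathlib

/-!
# Read-once tree tensor programs over a field: definitions
-/

set_option autoImplicit false

namespace Pool.Agent.MP_ec946a.RO

/-- A tree tensor program of width `w` over `K` with input variables indexed by `ι` and taking
values in `β`: a binary tree; every leaf carries a constant vector of `K^w` or an arbitrary
function from the value of one variable to `K^w`, and every inner node carries a bilinear map
`K^w × K^w → K^w`. -/
inductive TreeProg (ι β K : Type) (w : ℕ) : Type
  | const (v : Fin w → K) : TreeProg ι β K w
  | leaf (a : ι) (g : β → Fin w → K) : TreeProg ι β K w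
  | node (l r : TreeProg ι β K w) (A : Fin w → Fin w → Fin w → K) : TreeProg ι β K w

/-- The vector computed at the root on the input `x`. -/
def TreeProg.vec {ι β K : Type} [Field K] {w : ℕ} (x : ι → β) : TreeProg ι β K w → Fin w → K
  | .const v => v
  | .leaf a g => g (x a)
  | .node l r A => fun k => ∑ i, ∑ j, A k i j * (l.vec x i * r.vec x j)

/-- The list of the variables at the leaves. -/
def TreeProg.vars {ι β K : Type} {w : ℕ} : TreeProg ι β K w → List ι
  | .const _ => []
  | .leaf a _ => [a]
  | .node l r _ => l.vars ++ r.vars

/-- The output: a linear form, with coefficients `o`, of the vector at the root. -/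
def TreeProg.out {ι β K : Type} [Field K] {w : ℕ} (T : TreeProg ι β K w) (o : Fin w → K)
    (x : ι → β) : K := ∑ i, o i * T.vec x i

end Pool.Agent.MP_ec946a.RO
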