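import Pool.Agent.Lib.MP_ec946a_RO.Far
import Pool.Agent.Lib.MP_ec946a_RO.Tree
import Pool.Agent.Lib.MP_ec946a_RO.DnnfMain

/-!
# Exponential lower bound for the width of tree tensor programs
-/

set_option autoImplicit false

namespace Pool.Agent.MP_ec946a.RO

open Finset

open Classical in
/-- the index of the block containing `e` -/
noncomputable def idx {ι : Type} (bs : List (List ι)) (e : ι) : Option (Fin bs.length) :=
  if h : ∃ j : Fin bs.length, e ∈ bs[j] then some h.choose else none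

theorem idx_some {ι : Type} {bs : List (List ι)} {e : ι} {j : Fin bs.length}
    (h : idx bs e = some j) : e ∈ bs[j] := by
  unfold idx at h
  split_ifs at h with h1
  have h2 := Option.some.inj h
  rw [← h2]
  exact h1.choose_spec

theorem idx_eq {ι : Type} {bs : List (List ι)} (hnd : bs.flatten.Nodup) {e : ι}
    {j : Fin bs.length} (h : e ∈ bs[j]) : idx bs e = some j := by
  have h1 : ∃ j : Fin bs.length, e ∈ bs[j] := ⟨j, h⟩
  unfold idx
  rw [dif_pos h1]
  congr 1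
  by_contra hne
  have h2 := h1.choose_spec
  have hpw := (List.nodup_flatten.1 hnd).2
  rw [List.pairwise_iff_getElem] at hpw
  have hne' : (h1.choose).val ≠ j.val := fun hh => hne (Fin.ext hh)
  rcases lt_or_gt_of_ne hne' with hlt | hlt
  · exact hpw _ _ h1.choose.isLt j.isLt hlt h2 h
  · exact hpw _ _ j.isLt h1.choose.isLt hlt h h2

theorem tree_core {δ : ℝ} (hδ : 0 < δ) (hδ1 : δ < 1) : ∃ (ρ D : ℕ) (γ : ℝ), 0 < γ ∧ 1 ≤ D ∧
    ∀ n : ℕ, 1 ≤ n → ∃ tgt : Fin n × Fin D → Fin n,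
      ∀ (K : Type) [Field K] (w : ℕ)
        (T : TreeProg (Fin n × Fin D) (Fin (2 * 2 ^ ρ) → Fin (2 * 2 ^ ρ)) K w) (o : Fin w → K),
        T.vars.Nodup →
        (∀ (L : Lab n (2 ^ ρ)), ∀ τ ∈ compat tgt L, T.out o (inp τ) ≠ 0) →
        (∀ τ : Fin n × Fin D → Equiv.Perm (Fin (2 * 2 ^ ρ)),
          (∀ MU MV, ((nsat tgt (inp τ) MU MV : ℕ) : ℝ) ≤ δ * (D * n)) →
            T.out o (inp τ) = 0) →
        (2 : ℝ) ^ (γ * n) ≤ w := by
  classical
  set N : ℕ := ⌈128 / δ ^ 2⌉₊ with hN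
  have hN1 : 128 / δ ^ 2 ≤ N := Nat.le_ceil _
  have hN128 : (128 : ℝ) ≤ N * δ ^ 2 := by
    rw [div_le_iff₀ (by positivity)] at hN1
    exact hN1
  have hNpos : 1 ≤ N := by
    by_contra h
    have h0 : N = 0 := by omega
    rw [h0] at hN128
    norm_num at hN128
  obtain ⟨k, hk⟩ : ∃ k : ℕ, k = 2 * N + 1 := ⟨_, rfl⟩
  have hk1 : 1 ≤ k := by omega
  obtain ⟨κ, hκ⟩ : ∃ κ : ℕ, κ = k + 1 := ⟨_, rfl⟩
  set ρ : ℕ := ⌈4 / δ + 1⌉₊ + (κ + 3) * k ^ 2 with hρ
  have hρ1 : 4 / δ + 1 ≤ ρ := by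
    refine (Nat.le_ceil (4 / δ + 1)).trans ?_
    rw [hρ]
    push_cast
    have : (0 : ℝ) ≤ (κ + 3) * k ^ 2 := by positivity
    linarith
  have hρ2 : 4 ≤ ((ρ : ℝ) - 1) * δ := by
    have h1 : 4 / δ ≤ (ρ : ℝ) - 1 := by linarith
    rwa [div_le_iff₀ hδ] at h1
  have hρ3 : (κ + 3) * k ^ 2 ≤ ρ := by rw [hρ]; exact Nat.le_add_left _ _
  obtain ⟨D₀, hD₀⟩ := exists_good_graph hδ hδ1 k κ 1 ρ hk1 hρ2
  set D : ℕ := max D₀ ⌈128 / δ ^ 2⌉₊ with hD
  have hDN : N ≤ D := le_max_right _ _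
  have hD128 : (128 : ℝ) ≤ D * δ ^ 2 := by
    have : (N : ℝ) ≤ D := by exact_mod_cast hDN
    nlinarith [sq_nonneg δ]
  have hk0 : (0 : ℝ) < k := by exact_mod_cast hk1
  refine ⟨ρ, D, 1 / k, by positivity, by omega, ?_⟩
  intro n hn
  have hn0 : (0 : ℝ) < n := by exact_mod_cast hn
  have hn1 : (1 : ℝ) ≤ n := by exact_mod_cast hn
  obtain ⟨tgt, htgt⟩ := hD₀ D (le_max_left _ _) n hn
  refine ⟨tgt, ?_⟩
  intro K _ w T o hnd hyes hno
  by_contra hcon
  push Not at hcon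
  have hr : 1 ≤ 2 ^ ρ := Nat.one_le_two_pow
  -- the width as a natural number
  have hw : (w + 1) ^ k ≤ 2 ^ (κ * n) := by
    have h1 : (w : ℝ) + 1 ≤ 2 * (2 : ℝ) ^ (1 / (k : ℝ) * n) := by
      have h2 : (1 : ℝ) ≤ (2 : ℝ) ^ (1 / (k : ℝ) * n) :=
        Real.one_le_rpow (by norm_num) (by positivity)
      linarith
    have h2 : ((w : ℝ) + 1) ^ k ≤ (2 * (2 : ℝ) ^ (1 / (k : ℝ) * n)) ^ k :=
      pow_le_pow_left₀ (by positivity) h1 k
    have h3 : ((2 : ℝ) ^ (1 / (k : ℝ) * n)) ^ k = (2 : ℝ) ^ n := by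
      rw [← Real.rpow_natCast ((2 : ℝ) ^ (1 / (k : ℝ) * n)) k,
        ← Real.rpow_mul (by norm_num : (0 : ℝ) ≤ 2)]
      have h4 : 1 / (k : ℝ) * n * (k : ℝ) = (n : ℕ) := by
        field_simp
      rw [h4, Real.rpow_natCast]
    rw [mul_pow, h3, ← pow_add] at h2
    have h5 : (w + 1) ^ k ≤ 2 ^ (k + n) := by exact_mod_cast h2
    refine h5.trans (Nat.pow_le_pow_right (by norm_num) ?_)
    rw [hκ]
    have h6 : k * 1 ≤ k * n := Nat.mul_le_mul_left _ hn
    have h7 : (k + 1) * n = k * n + n := by ring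
    omega
  -- the blocks
  set t : ℕ := ⌊(δ / 8) ^ 2 * (D * n)⌋₊ with ht
  have htu : (t : ℝ) ≤ (δ / 8) ^ 2 * (D * n) := Nat.floor_le (by positivity)
  have htl : (δ / 8) ^ 2 * (D * n) < t + 1 := Nat.lt_floor_add_one _
  have hDn2 : 2 ≤ (δ / 8) ^ 2 * ((D : ℝ) * n) := by
    have h1 : (128 : ℝ) * 1 ≤ D * δ ^ 2 * n := mul_le_mul hD128 hn1 (by norm_num) (by positivity)
    nlinarith
  have ht1 : 1 ≤ t := by
    have h2 : (0 : ℝ) < t := by linarith
    exact_mod_cast h2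
  have hNt : n * D ≤ N * t := by
    have h1 : (δ / 8) ^ 2 * ((D : ℝ) * n) / 2 ≤ t := by linarith
    have h2 : (N : ℝ) * ((δ / 8) ^ 2 * ((D : ℝ) * n) / 2) ≤ N * t :=
      mul_le_mul_of_nonneg_left h1 (by positivity)
    have h3 : (N : ℝ) * ((δ / 8) ^ 2 * ((D : ℝ) * n) / 2) =
        (N * δ ^ 2) * (D * n) / 128 := by ring
    have h4 : (128 : ℝ) * (D * n) ≤ (N * δ ^ 2) * (D * n) :=
      mul_le_mul_of_nonneg_right hN128 (by positivity)
    have h5 : (n : ℝ) * D ≤ N * t := by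
      rw [h3] at h2
      linarith
    exact_mod_cast h5
  have hvl : T.shape.vars.length ≤ N * t := by
    refine le_trans ?_ hNt
    rw [T.vars_shape]
    have h1 := hnd.length_le_card
    rwa [Fintype.card_prod, Fintype.card_fin, Fintype.card_fin] at h1
  obtain ⟨bs, s', hbl, hbt, hs', hcuts⟩ := exists_cuts ht1 N T.shape hvl
  rw [← hk] at hbl
  have hfl : bs.flatten.Nodup := by
    have h1 : T.shape.vars.Nodup := by rw [T.vars_shape]; exact hnd
    exact (List.nodup_append.1 (hcuts.perm.nodup_iff.1 h1)).1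
  have hrank := rankCond_of_cuts hcuts hs' o T rfl hnd
  -- far labelings
  have hfar : 2 ^ (κ * n) * 2 ^ (n + 1) * 1 < (2 ^ ρ) ^ (n / k ^ 2 + 1) := by
    have h1 : (κ + 3) * n ≤ ρ * (n / k ^ 2 + 1) := by
      have h2 : n < (n / k ^ 2 + 1) * k ^ 2 := by
        have := Nat.lt_div_mul_add (a := n) (b := k ^ 2) (by positivity)
        calc n < n / k ^ 2 * k ^ 2 + k ^ 2 := this
          _ = _ := by ring
      calc (κ + 3) * n ≤ (κ + 3) * ((n / k ^ 2 + 1) * k ^ 2) := Nat.mul_le_mul_left _ h2.le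
        _ = (κ + 3) * k ^ 2 * (n / k ^ 2 + 1) := by ring
        _ ≤ _ := Nat.mul_le_mul_right _ hρ3
    rw [mul_one, ← pow_add, ← pow_mul]
    apply Nat.pow_lt_pow_right (by norm_num)
    have h5 : (κ + 3) * n = κ * n + 3 * n := by ring
    omega
  obtain ⟨f, _, hf2⟩ := exists_far_lab (univ : Finset (Lab n (2 ^ ρ))) (n / k ^ 2 + 1) 1
    (2 ^ (κ * n)) (by rw [card_univ, one_mul]) hfar hr
  have hI : Fintype.card (Fin (2 ^ (κ * n))) ≤ 2 ^ (κ * n) := by rw [Fintype.card_fin]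
  -- blocks as a function
  let cst : Fin bs.length → Fin k := Fin.cast hbl
  let blk : Fin n × Fin D → Option (Fin k) := fun e => (idx bs e).map cst
  have hblk : ∀ j : Fin k, ((univ.filter fun e => blk e = some j).card : ℝ) ≤
      (δ / 8) ^ 2 * (D * n) := by
    intro j
    refine le_trans ?_ htu
    have h1 : (univ.filter fun e => blk e = some j).card ≤ (bs[Fin.cast hbl.symm j]).length := by
      refine le_trans ?_ (List.toFinset_card_le _)
      apply card_le_card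
      intro e he
      rw [mem_filter] at he
      rw [List.mem_toFinset]
      have h2 : (idx bs e).map cst = some j := he.2
      rw [Option.map_eq_some_iff] at h2
      obtain ⟨i, hi, hij⟩ := h2
      have h3 := idx_some hi
      have h4 : i = Fin.cast hbl.symm j := by
        rw [← hij]
        rfl
      subst h4
      exact h3
    exact_mod_cast h1.trans (hbt _ (List.getElem_mem _))
  have hbad := htgt (Fin (2 ^ (κ * n))) f hI (fun i j hij => (not_close_div (hf2 i j hij)).1)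
    (fun i j hij => (not_close_div (hf2 i j hij)).2) blk hblk
  -- a good sample
  have hOpos : 0 < (Omega (spl tgt f)).card := by
    rw [Omega, Fintype.card_piFinset]
    apply prod_pos
    rintro (_ | j) _
    · rw [Fintype.card_piFinset]
      apply prod_pos
      intro e _
      exact card_pos.2 ⟨1, mem_univ _⟩
    · exact card_compat_pos hr tgt (f j)
  have hex : ∃ τ ∈ Omega (spl tgt f), τ ∉ badSet tgt f blk δ := by
    by_contra h
    push Not at h
    have h1 : (Omega (spl tgt f)).card ≤ (badSet tgt f blk δ).card := card_le_card h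
    have h2 : 2 ≤ 2 ^ (1 * n) := by
      calc 2 = 2 ^ 1 := rfl
        _ ≤ 2 ^ (1 * n) := Nat.pow_le_pow_right (by norm_num) (by omega)
    have h3 : (badSet tgt f blk δ).card * 2 ≤ (badSet tgt f blk δ).card * 2 ^ (1 * n) :=
      Nat.mul_le_mul_left _ h2
    omega
  obtain ⟨τ, hτ, hτb⟩ := hex
  have hτmem := Fintype.mem_piFinset.1 hτ
  -- replacement
  let X : Fin (2 ^ (κ * n)) → Fin n × Fin D → Fin (2 * 2 ^ ρ) → Fin (2 * 2 ^ ρ) :=
    fun i => inp (τ (some i))
  obtain ⟨Ex, hEx1, hEx2⟩ := replace_blocks X bs (fun x => T.out o x) ∅ hrank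
  obtain ⟨L, hL⟩ : ∃ L, L ∉ Ex := by
    by_contra h
    push Not at h
    have h1 : (univ : Finset (Fin (2 ^ (κ * n)))).card ≤ Ex.card :=
      card_le_card fun L _ => h L
    rw [card_univ, Fintype.card_fin] at h1
    rw [hbl] at hEx1
    omega
  obtain ⟨Ls, g1, _, g3, g4⟩ := hEx2 L hL (by simp) (hyes (f L) _ (hτmem (some L)))
  have hLk : Ls.length = k := g3.trans hbl
  let Tf : Fin k → Fin (2 ^ (κ * n)) := fun j => Ls[Fin.cast hLk.symm j]
  have hTf : Function.Injective Tf := by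
    intro i j hij
    have h1 := (List.Nodup.getElem_inj_iff g1).1 hij
    have h2 : i.val = j.val := h1
    exact Fin.ext h2
  have hhyb : hyb blk Tf τ = inp fun e => τ ((blk e).map Tf) e := rfl
  have hlow : ∀ MU MV, ((nsat tgt (inp fun e => τ ((blk e).map Tf) e) MU MV : ℕ) : ℝ) ≤
      δ * (D * n) := by
    intro MU MV
    by_contra hlt
    push Not at hlt
    apply hτb
    rw [badSet, mem_filter]
    exact ⟨hτ, Tf, hTf, MU, MV, hlt⟩
  refine g4 (inp fun e => τ ((blk e).map Tf) e) ?_ (hno _ hlow)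
  rw [List.forall₂_iff_get]
  refine ⟨g3.symm, ?_⟩
  intro i h1 h2 e he
  have h3 : idx bs e = some ⟨i, h1⟩ := idx_eq hfl he
  have h4 : blk e = some ⟨i, by omega⟩ := by
    simp only [blk, h3, Option.map_some]
    rfl
  simp only [inp, h4, Option.map_some, X]
  rfl

end Pool.Agent.MP_ec946a.RO
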